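import Pool.Agent.Q81.SP.Fund

open Finset

namespace Pool.Agent.Q81.SP

/-- block sizes -/
def B (m : ℕ) (T : Finset ℕ) (v : ℕ) : ℕ := ((range (m+1)).filter fun k => wT T k = v).card

lemma fib_eq (m : ℕ) (T : Finset ℕ) : fib m T = (range (m+1)).val.map (B m T) := rfl

lemma wT_le (T : Finset ℕ) (k : ℕ) : wT T k ≤ k := by
  unfold wT
  calc _ ≤ (range k).card := card_filter_le _ _
    _ = k := card_range k

lemma wT_surj (T : Finset ℕ) (K v : ℕ) (h : v ≤ wT T K) : ∃ k ≤ K, wT T k = v := by
  induction K with
  | zero => exact ⟨0, le_refl _, by have := wT_le T 0; omega⟩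
  | succ K ih =>
    rcases Nat.lt_or_ge (wT T K) v with h' | h'
    · refine ⟨K+1, le_refl _, ?_⟩
      have := wT_succ T K
      split_ifs at this <;> omega
    · obtain ⟨k, hk, e⟩ := ih h'
      exact ⟨k, by omega, e⟩

lemma wT_top {m : ℕ} {T : Finset ℕ} (hT : T ⊆ range m) : wT T m + T.card = m := by
  unfold wT
  have : (range m).filter (· ∉ T) = range m \ T := by
    ext x; simp
  rw [this, card_sdiff_of_subset hT, card_range]
  have := card_le_card hT
  rw [card_range] at this
  omega

lemma B_le {m : ℕ} {T : Finset ℕ} (hN : NA T) (v : ℕ) : B m T v ≤ 2 := by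
  classical
  unfold B
  set s := (range (m+1)).filter fun k => wT T k = v with hs
  rcases s.eq_empty_or_nonempty with h | h
  · rw [h]; simp
  · set a := s.min' h with ha
    have ham : a ∈ s := min'_mem s h
    have sub : s ⊆ {a, a+1} := by
      intro k hk
      have h1 : a ≤ k := min'_le s k hk
      rw [hs, mem_filter] at hk ham
      by_contra hc
      simp only [mem_insert, mem_singleton, not_or] at hc
      have h2 := wT_mono T (show a + 2 ≤ k by omega)
      have h3 := wT_succ T a
      have h4 := wT_succ T (a+1)
      rw [show a + 1 + 1 = a + 2 from rfl] at h4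
      split_ifs at h3 h4 with h5 h6
      · exact hN a h5 h6
      all_goals omega
    exact (card_le_card sub).trans (card_le_two)

lemma nz {m : ℕ} {T : Finset ℕ} (hT : T ⊆ range m) :
    ((range (m+1)).filter fun v => B m T v ≠ 0).card + T.card = m + 1 := by
  have : ((range (m+1)).filter fun v => B m T v ≠ 0) = range (wT T m + 1) := by
    ext v
    rw [mem_filter, mem_range, mem_range]
    unfold B
    rw [← Nat.pos_iff_ne_zero, card_pos]
    constructor
    · rintro ⟨_, k, hk⟩
      rw [mem_filter, mem_range] at hk
      have := wT_mono T (show k ≤ m by omega)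
      omega
    · intro h
      have := wT_le T m
      obtain ⟨k, hk, e⟩ := wT_surj T m v (by omega)
      exact ⟨by omega, k, by rw [mem_filter, mem_range]; exact ⟨by omega, e⟩⟩
  rw [this, card_range]
  have := wT_top hT
  omega

lemma sumB (m : ℕ) (T : Finset ℕ) : ∑ v ∈ range (m+1), B m T v = m + 1 := by
  unfold B
  rw [← Finset.card_eq_sum_card_fiberwise (f := wT T), card_range]
  intro k hk
  rw [coe_range, Set.mem_Iio] at hk ⊢
  have := wT_le T k
  omega

lemma two_count {m : ℕ} {T : Finset ℕ} (hT : T ⊆ range m) (hN : NA T) :
    ((range (m+1)).filter fun v => B m T v = 2).card = T.card := by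
  have h1 := nz hT
  have h2 := sumB m T
  have : ∑ v ∈ range (m+1), B m T v = ((range (m+1)).filter fun v => B m T v ≠ 0).card +
      ((range (m+1)).filter fun v => B m T v = 2).card := by
    rw [card_eq_sum_ones, card_eq_sum_ones, sum_filter, sum_filter, ← sum_add_distrib]
    apply sum_congr rfl
    intro v _
    have := B_le hN v (m := m)
    split_ifs <;> omega
  omega

lemma fib_NA {m : ℕ} {T T' : Finset ℕ} (hT : T ⊆ range m) (hT' : T' ⊆ range m) (hN : NA T)
    (hN' : NA T') (hc : T.card = T'.card) : fib m T = fib m T' := by
  classical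
  ext j
  rw [fib_eq, fib_eq, Multiset.count_map, Multiset.count_map]
  have e : ∀ U : Finset ℕ, (Multiset.filter (fun a => j = B m U a) (range (m+1)).val).card =
      ((range (m+1)).filter fun v => B m U v = j).card := by
    intro U
    rw [Finset.card_def, Finset.filter_val]
    congr 2
    ext a
    exact eq_comm
  rw [e, e]
  have z : ∀ U : Finset ℕ, ((range (m+1)).filter fun v => B m U v ≠ 0).card +
      ((range (m+1)).filter fun v => B m U v = 0).card = m + 1 := by
    intro U
    have := Finset.card_filter_add_card_filter_not (s := range (m+1)) (fun v => B m U v ≠ 0)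
    simp only [ne_eq, not_not, card_range] at this ⊢
    exact this
  have o : ∀ U : Finset ℕ, NA U → ((range (m+1)).filter fun v => B m U v ≠ 0).card =
      ((range (m+1)).filter fun v => B m U v = 1).card +
      ((range (m+1)).filter fun v => B m U v = 2).card := by
    intro U hU
    rw [card_eq_sum_ones, card_eq_sum_ones, card_eq_sum_ones, sum_filter, sum_filter, sum_filter,
      ← sum_add_distrib]
    apply sum_congr rfl
    intro v _
    have := B_le hU v (m := m)
    split_ifs <;> omega
  have h1 := nz hT
  have h1' := nz hT'
  have h2 := two_count hT hN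
  have h2' := two_count hT' hN'
  rcases (by omega : j = 0 ∨ j = 1 ∨ j = 2 ∨ 3 ≤ j) with rfl | rfl | rfl | hj
  · have := z T; have := z T'; omega
  · have := o T hN; have := o T' hN'; omega
  · omega
  · have : ∀ U : Finset ℕ, NA U → ((range (m+1)).filter fun v => B m U v = j).card = 0 := by
      intro U hU
      rw [card_eq_zero, filter_eq_empty_iff]
      intro v _
      have := B_le hU v (m := m)
      omega
    rw [this T hN, this T' hN']

lemma wT_adj (i k : ℕ) : wT {i, i+1} k = if k ≤ i then k else if k ≤ i + 2 then i else k - 2 := by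
  induction k with
  | zero => simp [wT]
  | succ k ih =>
    rw [wT_succ, ih]
    simp only [mem_insert, mem_singleton]
    split_ifs <;> omega

lemma B_adj {m i : ℕ} (hi : i + 1 < m) (v : ℕ) :
    B m {i, i+1} v = if v = i then 3 else if v + 2 ≤ m then 1 else 0 := by
  unfold B
  simp only [wT_adj]
  split_ifs with h1 h2
  · subst h1
    have : ((range (m+1)).filter fun k => (if k ≤ v then k else if k ≤ v + 2 then v else k - 2) = v)
        = {v, v+1, v+2} := by
      ext k
      simp only [mem_filter, mem_range, mem_insert, mem_singleton]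
      split_ifs <;> omega
    rw [this, card_insert_of_notMem (by simp), card_pair (by omega)]
  · rcases Nat.lt_or_ge v i with h | h
    · have : ((range (m+1)).filter fun k => (if k ≤ i then k else if k ≤ i + 2 then i else k - 2)
          = v) = {v} := by
        ext k
        simp only [mem_filter, mem_range, mem_singleton]
        split_ifs <;> omega
      rw [this, card_singleton]
    · have : ((range (m+1)).filter fun k => (if k ≤ i then k else if k ≤ i + 2 then i else k - 2)
          = v) = {v+2} := by
        ext k
        simp only [mem_filter, mem_range, mem_singleton]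
        split_ifs <;> omega
      rw [this, card_singleton]
  · rw [card_eq_zero, filter_eq_empty_iff]
    intro k hk
    rw [mem_range] at hk
    split_ifs <;> omega

lemma fib_adj {m i j : ℕ} (hi : i + 1 < m) (hj : j + 1 < m) :
    fib m {i, i+1} = fib m {j, j+1} := by
  classical
  have key : ∀ i, i + 1 < m → (∑ v ∈ range (m+1), ({B m {i, i+1} v} : Multiset ℕ)) + {1} =
      {3} + ∑ v ∈ range (m+1), ({if v + 2 ≤ m then 1 else 0} : Multiset ℕ) := by
    intro i hi
    have hmem : i ∈ range (m+1) := by rw [mem_range]; omega
    rw [← add_sum_erase _ _ hmem, ← add_sum_erase (range (m+1))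
      (fun v => ({if v + 2 ≤ m then 1 else 0} : Multiset ℕ)) hmem, B_adj hi i, if_pos rfl,
      if_pos (by omega : i + 2 ≤ m)]
    have : ∑ x ∈ (range (m+1)).erase i, ({B m {i, i+1} x} : Multiset ℕ) =
        ∑ x ∈ (range (m+1)).erase i, ({if x + 2 ≤ m then 1 else 0} : Multiset ℕ) := by
      apply sum_congr rfl
      intro v hv
      rw [mem_erase] at hv
      rw [B_adj hi, if_neg hv.1]
    rw [this]
    abel
  have e : ∀ T, fib m T = ∑ v ∈ range (m+1), ({B m T v} : Multiset ℕ) := by
    intro T
    rw [fib_eq, Finset.sum_eq_multiset_sum]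
    have := Multiset.sum_map_singleton ((range (m+1)).val.map (B m T))
    rw [Multiset.map_map] at this
    exact this.symm
  rw [e, e]
  have h := (key i hi).trans (key j hj).symm
  exact add_right_cancel h

end Pool.Agent.Q81.SP
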