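import Pool.Agent.Q81.SP.Main

open Finset

namespace Pool.Agent.Q81.SP

variable {ι : Type*} [Fintype ι]

def Sing (m : ℕ) (D : ι → Finset ℕ) : Prop :=
  ∀ i ∈ range m, (univ.filter fun k => D k = {i}).card = 1

def CoSing (m : ℕ) (D : ι → Finset ℕ) : Prop :=
  ∀ i ∈ range m, (univ.filter fun k => D k = range m \ {i}).card = 1

lemma cosing_of {m : ℕ} {D : ι → Finset ℕ} (hD : Good m D) (h : Sing m (cpl m D)) :
    CoSing m D := by
  intro i hi
  have h' := h i hi
  have e : (univ.filter fun k => D k = range m \ {i}) = univ.filter fun k => cpl m D k = {i} := by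
    ext k
    rw [mem_filter, mem_filter]
    refine and_congr_right fun _ => ?_
    show _ ↔ range m \ D k = {i}
    constructor
    · intro e
      rw [e, Finset.sdiff_sdiff_eq_self (by simpa using hi)]
    · intro e
      rw [← e, Finset.sdiff_sdiff_eq_self (hD.sub k)]
  rw [e]; exact h'

lemma card_inter_insert (A B : Finset ℕ) {a : ℕ} (ha : a ∉ B) :
    (A ∩ insert a B).card = (A ∩ B).card + if a ∈ A then 1 else 0 := by
  split_ifs with h
  · rw [inter_insert_of_mem h, card_insert_of_notMem]
    exact fun hh => ha (mem_inter.mp hh).2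
  · rw [inter_insert_of_notMem h, add_zero]

lemma even_att {q : ℕ} (hq : 2 ≤ q) {D : ι → Finset ℕ} (hD : Good (2 * q) D) :
    ∃ r, r + 1 ≤ q ∧ Att (2 * q) D q r ∧ Att (2 * q) D q (r + 1) := by
  classical
  obtain ⟨k, hk⟩ := exists_ne hD (by omega) (i := 0) (by omega)
  set B := (O q 0).erase 1 with hB
  have h1 : 1 ∈ O q 0 := mem_O.mpr ⟨0, by omega, by simp⟩
  have e0 : O q 0 = insert 1 B := (insert_erase h1).symm
  have h0B : 0 ∉ B := by
    rw [hB, mem_erase, mem_O]
    rintro ⟨_, j, hj, h⟩
    simp at h
  have h1B : 1 ∉ B := by simp [hB]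
  have e1 : O q 1 = insert 0 B := by
    ext x
    rw [mem_insert, hB, mem_erase, mem_O, mem_O]
    constructor
    · rintro ⟨j, hj, h⟩
      split_ifs at h with h'
      · left; omega
      · right; exact ⟨by omega, j, hj, by simp; omega⟩
    · rintro (h | ⟨h, j, hj, h'⟩)
      · exact ⟨0, by omega, by simp [h]⟩
      · simp at h'
        exact ⟨j, hj, by rw [if_neg (by omega)]; exact h'⟩
  have c0 := card_inter_insert (D k) B h1B
  have c1 := card_inter_insert (D k) B h0B
  rw [← e0] at c0
  rw [← e1] at c1
  have hle : ∀ a, (D k ∩ O q a).card ≤ q := fun a => by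
    conv_rhs => rw [← O_card q a]
    exact card_le_card inter_subset_right
  by_cases ha : 0 ∈ D k
  · have hb : 1 ∉ D k := by tauto
    rw [if_neg hb] at c0
    rw [if_pos ha] at c1
    have := hle 1
    exact ⟨(D k ∩ B).card, by omega, ⟨O q 0, k, O_sub q 0, O_NA q 0, O_card q 0, by omega⟩,
      ⟨O q 1, k, O_sub q 1, O_NA q 1, O_card q 1, c1⟩⟩
  · have hb : 1 ∈ D k := by tauto
    rw [if_pos hb] at c0
    rw [if_neg ha] at c1
    have := hle 0
    exact ⟨(D k ∩ B).card, by omega, ⟨O q 1, k, O_sub q 1, O_NA q 1, O_card q 1, by omega⟩,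
      ⟨O q 0, k, O_sub q 0, O_NA q 0, O_card q 0, c0⟩⟩

theorem even_case {q : ℕ} (hq : 3 ≤ q) {D : ι → Finset ℕ} (hD : Good (2 * q) D) :
    Sing (2 * q) D ∨ CoSing (2 * q) D ∨ (q = 3 ∧ Att (2 * q) D q 1 ∧ Att (2 * q) D q 2) := by
  classical
  obtain ⟨r, hr, a1, a2⟩ := even_att (by omega) hD
  rcases Nat.eq_zero_or_pos r with h | h
  · subst h
    left; exact even_main hq hD a1 a2
  · rcases Nat.eq_or_lt_of_le hr with h' | h'
    · right; left
      apply cosing_of hD
      apply even_main hq hD.cpl
      · have := att_cpl a2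
        rw [show q - (r+1) = 0 by omega] at this
        exact this
      · have := att_cpl a1
        rw [show q - r = 1 by omega] at this
        exact this
    · have g1 := att_ge hD a1 (O_sub q 0) (O_NA q 0) (O_card q 0)
      have g2 := att_ge hD a2 (O_sub q 0) (O_NA q 0) (O_card q 0)
      have g3 := card2_le (D := D) (O q 0) (a := r) (b := r + 1) (by omega)
      rw [hD.card] at g3
      have b1 := choose_ge q r (by omega) (by omega)
      have b2 := choose_ge q (r+1) (by omega) (by omega)
      rcases Nat.lt_or_ge r 2 with h2 | h2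
      · have : r = 1 := by omega
        subst this
        rcases Nat.lt_or_ge q 4 with h4 | h4
        · right; right; exact ⟨by omega, a1, a2⟩
        · exfalso
          have := choose_gt q 2 (by omega) (by omega)
          rw [show (1:ℕ)+1 = 2 from rfl] at g2 g3 b2
          rw [Nat.choose_one_right] at g1
          omega
      · exfalso
        have := choose_gt q r (by omega) (by omega)
        omega

theorem odd_case {q : ℕ} (hq : 4 ≤ q) {D : ι → Finset ℕ} (hD : Good (2 * q - 1) D) :
    Sing (2 * q - 1) D ∨ CoSing (2 * q - 1) D ∨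
      (q = 4 ∧ Att (2 * q - 1) D q 2) := by
  classical
  have OE : O q q = (range q).image fun j => 2 * j := by
    ext x; simp only [mem_O, mem_image, mem_range]
    constructor
    · rintro ⟨j, hj, h⟩; rw [if_pos hj] at h; exact ⟨j, hj, h⟩
    · rintro ⟨j, hj, h⟩; exact ⟨j, hj, by rw [if_pos hj]; exact h⟩
  have Osub : O q q ⊆ range (2 * q - 1) := by
    rw [OE]; intro x hx; simp at hx ⊢; omega
  obtain ⟨k, hk⟩ := lt_pair hD (by omega)
  push Not at hk
  set s := (D k ∩ O q q).card with hs
  have at' : Att (2 * q - 1) D q s := ⟨O q q, k, Osub, O_NA q q, O_card q q, hs.symm⟩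
  have z0 : 0 ∈ O q q := mem_O.mpr ⟨0, by omega, by simp; omega⟩
  have z2 : 2 ∈ O q q := mem_O.mpr ⟨1, by omega, by simp; omega⟩
  have s1 : 1 ≤ s := card_pos.mpr ⟨0, mem_inter.mpr ⟨hk.1, z0⟩⟩
  have s2 : s < q := by
    rw [hs]
    conv_rhs => rw [← O_card q q]
    apply card_lt_card
    rw [ssubset_iff_of_subset inter_subset_right]
    exact ⟨2, z2, fun h => hk.2 (mem_inter.mp h).1⟩
  rcases Nat.eq_or_lt_of_le s1 with h | h
  · left; exact odd_main hq hD (h ▸ at')
  · rcases Nat.lt_or_ge (s+1) q with h' | h'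
    · rcases Nat.lt_or_ge q 5 with h5 | h5
      · right; right
        have : s = 2 := by omega
        exact ⟨by omega, this ▸ at'⟩
      · exfalso
        have g1 := att_ge hD at' Osub (O_NA q q) (O_card q q)
        have g2 := choose_ge2 q s h5 (by omega) (by omega)
        have g3 : (univ.filter fun k => (D k ∩ O q q).card = s).card ≤ Fintype.card ι :=
          card_le_univ _
        rw [hD.card] at g3
        omega
    · right; left
      apply cosing_of hD
      apply odd_main hq hD.cpl
      have := att_cpl at'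
      rw [show q - s = 1 by omega] at this
      exact this

end Pool.Agent.Q81.SP
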