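import Pool.Agent.Q81.SP.Special

open Finset

namespace Pool.Agent.Q81.SP

variable {ι : Type*} [Fintype ι]

lemma g_cpl_one {m : ℕ} {D : ι → Finset ℕ} (hD : Good m D) {i : ℕ} (hi : i < m) :
    g (cpl m D) ∅ {i} + g D ∅ {i} = m := by
  rw [g_cpl D (empty_subset _) (by simpa using hi)]
  have := g_split D ∅ ∅ i
  rw [g_empty, hD.card] at this
  simpa using this.symm

lemma sing_of {m : ℕ} {D : ι → Finset ℕ} (hD : Good m D) (hm : 1 ≤ m) (h : g D ∅ {0} = 1) :
    Sing m D := final hD hm h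

lemma cosing_of' {m : ℕ} {D : ι → Finset ℕ} (hD : Good m D) (hm : 1 ≤ m)
    (h : g D ∅ {0} + 1 = m) : CoSing m D := by
  apply cosing_of hD
  apply final hD.cpl hm
  have := g_cpl_one hD (i := 0) (by omega)
  omega

lemma d_lt {m : ℕ} {D : ι → Finset ℕ} (hD : Good m D) (hm : 1 ≤ m) : g D ∅ {0} + 1 ≤ m := by
  have := g_cpl_one hD (i := 0) (by omega)
  have h2 := d_pos hD.cpl hm
  omega

/-- nonadjacent strictness -/
lemma g_lt_non {m : ℕ} {D : ι → Finset ℕ} (hD : Good m D) (hm : 4 ≤ m) :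
    g D ∅ {0, 2} < g D ∅ {0} := by
  classical
  have hle : g D ∅ {0,2} ≤ g D ∅ {0} := by
    unfold g
    apply card_le_card
    intro k
    simp only [mem_filter, mem_univ, true_and, insert_subset_iff, singleton_subset_iff]
    tauto
  obtain ⟨k, hk⟩ := lt_pair hD hm
  by_contra hcon
  have e0 : g D ∅ {0} = g D ∅ {0, 2} := by omega
  apply hk
  intro h
  exact all_of_eq (R := {0}) (R' := {0,2}) (by simp) e0 k (by simpa using h) (by simp)

/-- size statistics -/
lemma Rm {m : ℕ} {D : ι → Finset ℕ} (hD : Good m D) (hm : 1 ≤ m) :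
    (∑ s ∈ range (m+1), (univ.filter fun k => (D k).card = s).card = m) ∧
    (∑ s ∈ range (m+1), (univ.filter fun k => (D k).card = s).card * s = m * g D ∅ {0}) ∧
    (univ.filter fun k => (D k).card = 0).card = 0 ∧
    (univ.filter fun k => (D k).card = m).card = 0 := by
  have hr : ∀ k, D k ∩ range m = D k := fun k => inter_eq_left.mpr (hD.sub k)
  have t0 := sizes D (range m) m (by simp) (fun _ => 1)
  have t1 := sizes D (range m) m (by simp) (fun s => s)
  rw [dc D (range m), sum_congr rfl (g := fun _ => g D ∅ {0})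
    (fun i hi => g_one hD (mem_range.mp hi) (by omega))] at t1
  simp only [hr] at t0 t1
  refine ⟨?_, ?_, ?_, ?_⟩
  · simpa [hD.card] using t0.symm
  · rw [← t1]; simp
  · apply zero_of
    intro k
    have := card_pos.mpr (hD.ne k)
    omega
  · apply zero_of
    intro k h
    exact hD.nf k (Finset.eq_of_subset_of_card_le (hD.sub k) (by simp [h]))

lemma R2 {m : ℕ} {D : ι → Finset ℕ} (hD : Good m D) (hm : 4 ≤ m) :
    (∑ s ∈ range (m+1), (univ.filter fun k => (D k).card = s).card * s.choose 2 =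
      ((powersetCard 2 (range m)).filter (fun R => NA R)).card * g D ∅ {0, 2} +
      ((powersetCard 2 (range m)).filter (fun R => ¬ NA R)).card * g D ∅ {0, 1}) := by
  have hr : ∀ k, D k ∩ range m = D k := fun k => inter_eq_left.mpr (hD.sub k)
  have t2 := sizes D (range m) m (by simp) (fun s => s.choose 2)
  rw [dcj, sum_pairs hD hm] at t2
  simp only [hr] at t2
  exact t2.symm

lemma case2 {D : ι → Finset ℕ} (hD : Good 2 D) : Sing 2 D := by
  apply sing_of hD (by omega)
  have := d_pos hD (by omega)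
  have := d_lt hD (by omega)
  omega

lemma case3 {D : ι → Finset ℕ} (hD : Good 3 D) : Sing 3 D ∨ CoSing 3 D := by
  have h1 := d_pos hD (by omega)
  have h2 := d_lt hD (by omega)
  rcases (by omega : g D ∅ {0} = 1 ∨ g D ∅ {0} + 1 = 3) with h | h
  · left; exact sing_of hD (by omega) h
  · right; exact cosing_of' hD (by omega) h

lemma pc2_4a : ((powersetCard 2 (range 4)).filter (fun R => NA R)).card = 3 := by decide
lemma pc2_4b : ((powersetCard 2 (range 4)).filter (fun R => ¬ NA R)).card = 3 := by decide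
lemma pc2_5a : ((powersetCard 2 (range 5)).filter (fun R => NA R)).card = 6 := by decide
lemma pc2_5b : ((powersetCard 2 (range 5)).filter (fun R => ¬ NA R)).card = 4 := by decide

lemma arith4 (n1 n2 n3 e e' : ℕ) (h0 : n1 + n2 + n3 = 4) (h1 : n1 + n2 * 2 + n3 * 3 = 8)
    (h2 : n2 + n3 * 3 = 3 * e + 3 * e') (he : e < 2) (he' : e' < 2) :
    e = 1 ∧ e' = 1 ∧ n2 = 0 := by omega

/-- uniqueness from a count equal to one -/
lemma uniq_of_g {D : ι → Finset ℕ} {R : Finset ℕ} (h : g D ∅ R = 1) {k k' : ι} (hk : R ⊆ D k)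
    (hk' : R ⊆ D k') : k = k' := by
  unfold g at h
  have := card_le_one.mp (le_of_eq h)
  exact this k (by simp [hk]) k' (by simp [hk'])

lemma ex_of_g {D : ι → Finset ℕ} {R : Finset ℕ} (h : 1 ≤ g D ∅ R) : ∃ k, R ⊆ D k := by
  unfold g at h
  obtain ⟨k, hk⟩ := card_pos.mp h
  exact ⟨k, (mem_filter.mp hk).2.2⟩

lemma four_sets : ∀ A ∈ (range 4).powerset, A.card ≠ 2 → A ≠ range 4 → 0 ∈ A → 3 ∈ A →
    A = {0,1,3} ∨ A = {0,2,3} := by decide
lemma four_sets2 : ∀ A ∈ (range 4).powerset, A.card ≠ 2 → A ≠ range 4 → 0 ∈ A → 2 ∈ A →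
    A = {0,1,2} ∨ A = {0,2,3} := by decide
lemma four_sets3 : ∀ A ∈ (range 4).powerset, A.card ≠ 2 → A ≠ range 4 → 1 ∈ A → 3 ∈ A →
    A = {0,1,3} ∨ A = {1,2,3} := by decide

lemma case4 {D : ι → Finset ℕ} (hD : Good 4 D) : Sing 4 D ∨ CoSing 4 D := by
  have h1 := d_pos hD (by omega)
  have h2 := d_lt hD (by omega)
  rcases (by omega : g D ∅ {0} = 1 ∨ g D ∅ {0} + 1 = 4 ∨ g D ∅ {0} = 2) with h | h | h
  · left; exact sing_of hD (by omega) h
  · right; exact cosing_of' hD (by omega) h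
  · exfalso
    obtain ⟨t0, t1, z0, zm⟩ := Rm hD (by omega)
    have t2 := R2 hD (by omega)
    rw [pc2_4a, pc2_4b] at t2
    simp only [sum_range_succ, range_zero, sum_empty, zero_add, ch_0_2, ch_1_2, ch_2_2, ch_3_2,
      ch_4_2, mul_zero, mul_one] at t0 t1 t2
    have e1 := g_lt_adj hD (by omega)
    have e2 := g_lt_non hD (by omega)
    rw [h] at e1 e2 t1
    simp only [z0, zm, zero_mul, zero_add, add_zero] at t0 t1 t2
    obtain ⟨he, he', hn2⟩ := arith4 _ _ _ _ _ t0 t1 t2 e2 e1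
    have hc : ∀ k, (D k).card ≠ 2 := by
      intro k hk
      rw [card_eq_zero, filter_eq_empty_iff] at hn2
      exact hn2 (mem_univ k) hk
    have E : ∀ i j, i < 4 → j < 4 → i + 1 < j → g D ∅ {i, j} = 1 := by
      intro i j hi hj hij
      rw [← he]
      exact hD.sym _ _ (by intro x; simp; omega) (by intro x; simp; omega)
        (by intro x; simp; omega) (by intro x; simp; omega)
        (by rw [card_pair (by omega), card_pair (by omega)])
    have E01 : g D ∅ {0, 1} = 1 := he'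
    have E23 : g D ∅ {2, 3} = 1 := by
      rw [← he']; exact hD.adj 2 0 (by omega) (by omega)
    obtain ⟨a, ha⟩ := ex_of_g (le_of_eq (E 0 3 (by omega) (by omega) (by omega)).symm)
    obtain ⟨b, hb⟩ := ex_of_g (le_of_eq (E 0 2 (by omega) (by omega) (by omega)).symm)
    obtain ⟨c, hc'⟩ := ex_of_g (le_of_eq (E 1 3 (by omega) (by omega) (by omega)).symm)
    rw [insert_subset_iff, singleton_subset_iff] at ha hb hc'
    have fa := four_sets (D a) (mem_powerset.mpr (hD.sub a)) (hc a) (hD.nf a) ha.1 ha.2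
    have fb := four_sets2 (D b) (mem_powerset.mpr (hD.sub b)) (hc b) (hD.nf b) hb.1 hb.2
    have fc := four_sets3 (D c) (mem_powerset.mpr (hD.sub c)) (hc c) (hD.nf c) hc'.1 hc'.2
    have hE03 := E 0 3 (by omega) (by omega) (by omega)
    rcases fa with fa | fa
    · -- D a = {0,1,3}
      rcases fb with fb | fb
      · -- {0,1,2} and {0,1,3} both contain {0,1}
        have := uniq_of_g E01 (k := a) (k' := b) (by rw [fa]; decide) (by rw [fb]; decide)
        rw [this, fb] at fa
        exact absurd fa (by decide)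
      · have := uniq_of_g hE03 (k := a) (k' := b) (by rw [fa]; decide) (by rw [fb]; decide)
        rw [this, fb] at fa
        exact absurd fa (by decide)
    · rcases fc with fc | fc
      · have := uniq_of_g hE03 (k := a) (k' := c) (by rw [fa]; decide) (by rw [fc]; decide)
        rw [this, fc] at fa
        exact absurd fa (by decide)
      · have := uniq_of_g E23 (k := a) (k' := c) (by rw [fa]; decide) (by rw [fc]; decide)
        rw [this, fc] at fa
        exact absurd fa (by decide)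

/-- the exceptional family -/
def X : Finset (Finset ℕ) := {{0,2,4},{0,3},{1,3},{1,4},{2}}

lemma arith5a (z0 z1 z2 z3 e : ℕ) (h0 : z0 + z1 + z2 + z3 = 5)
    (h1 : 3 * 2 = z1 + z2 * 2 + z3 * 3) (h2 : 3 * e = z2 + z3 * 3) (he : e < 2) : e = 1 := by
  omega

lemma arith5b (n1 n2 n3 n4 e' : ℕ) (h0 : n1 + n2 + n3 + n4 = 5)
    (h1 : n1 + n2 * 2 + n3 * 3 + n4 * 4 = 10)
    (h2 : n2 + n3 * 3 + n4 * 6 = 6 + 4 * e') (he' : e' < 2) : e' = 0 ∧ n3 = 1 := by omega

lemma five_sets : ∀ A ∈ (range 5).powerset, (∀ i ∈ range 4, ¬ (i ∈ A ∧ i + 1 ∈ A)) →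
    (A.card = 3 → A = {0,2,4}) ∧ (0 ∈ A → 3 ∈ A → A = {0,3}) ∧ (1 ∈ A → 3 ∈ A → A = {1,3}) ∧
    (1 ∈ A → 4 ∈ A → A = {1,4}) ∧ (2 ∈ A → 0 ∉ A → 4 ∉ A → A = {2}) := by decide

lemma case5a {D : ι → Finset ℕ} (hD : Good 5 D) (h : g D ∅ {0} = 2) : ∀ A ∈ X, ∃ k, D k = A := by
  classical
  obtain ⟨t0, t1, z0, zm⟩ := Rm hD (by omega)
  have t2 := R2 hD (by omega)
  rw [pc2_5a, pc2_5b] at t2
  simp only [sum_range_succ, range_zero, sum_empty, zero_add, ch_0_2, ch_1_2, ch_2_2, ch_3_2,
    ch_4_2, ch_5_2, mul_zero, mul_one] at t0 t1 t2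
  have e1 := g_lt_adj hD (by omega)
  have e2 := g_lt_non hD (by omega)
  rw [h] at e1 e2 t1
  simp only [z0, zm, zero_mul, zero_add, add_zero] at t0 t1 t2
  have hT0 : ({0,2,4} : Finset ℕ) ⊆ range 5 := by decide
  have hN0 : NA ({0,2,4} : Finset ℕ) := by decide
  have hc0 : ({0,2,4} : Finset ℕ).card = 3 := by decide
  have s0 := sizes D {0,2,4} 3 (by decide) (fun _ => 1)
  have s1 := sizes D {0,2,4} 3 (by decide) (fun s => s)
  have s2 := sizes D {0,2,4} 3 (by decide) (fun s => s.choose 2)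
  rw [dc D, sum_congr rfl (g := fun _ => g D ∅ {0})
    (fun i hi => g_one hD (mem_range.mp (hT0 hi)) (by omega)), h] at s1
  rw [dcj D {0,2,4} 2, sum_congr rfl (g := fun _ => g D ∅ {0, 2}) (fun R hR => by
    rw [mem_powersetCard] at hR
    exact hD.sym _ _ (hR.1.trans hT0) (by decide) (hN0.mono hR.1) (by decide)
        (by rw [hR.2]; rfl))] at s2
  simp only [sum_const, card_univ, hD.card, card_powersetCard, hc0, smul_eq_mul, mul_one,
    sum_range_succ, range_zero, sum_empty, zero_add, ch_0_2, ch_1_2, ch_2_2, ch_3_2, mul_zero]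
    at s0 s1 s2
  have he : g D ∅ {0, 2} = 1 := arith5a _ _ _ _ _ s0.symm s1 s2 e2
  rw [he] at t2
  obtain ⟨he', hn3⟩ := arith5b _ _ _ _ _ t0 t1 t2 e1
  have noadj : ∀ k, ∀ i ∈ range 4, ¬ (i ∈ D k ∧ i + 1 ∈ D k) := by
    intro k i hi hk
    rw [mem_range] at hi
    have : g D ∅ {i, i+1} = 0 := by rw [← he']; exact hD.adj i 0 (by omega) (by omega)
    unfold g at this
    rw [card_eq_zero, filter_eq_empty_iff] at this
    exact this (mem_univ k) ⟨disjoint_empty_left _, by
      rw [insert_subset_iff, singleton_subset_iff]; exact hk⟩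
  have FS := fun k => five_sets (D k) (mem_powerset.mpr (hD.sub k)) (noadj k)
  have E : ∀ i j, i < 5 → j < 5 → i + 1 < j → g D ∅ {i, j} = 1 := by
    intro i j hi hj hij
    rw [← he]
    exact hD.sym _ _ (by intro x; simp; omega) (by intro x; simp; omega)
      (by intro x; simp; omega) (by intro x; simp; omega)
      (by rw [card_pair (by omega), card_pair (by omega)])
  obtain ⟨c, hc⟩ := card_pos.mp (lt_of_lt_of_eq Nat.zero_lt_one hn3.symm)
  have hc' := (FS c).1 (mem_filter.mp hc).2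
  obtain ⟨a, ha⟩ := ex_of_g (le_of_eq (E 0 3 (by omega) (by omega) (by omega)).symm)
  obtain ⟨b, hb⟩ := ex_of_g (le_of_eq (E 1 3 (by omega) (by omega) (by omega)).symm)
  obtain ⟨d, hd⟩ := ex_of_g (le_of_eq (E 1 4 (by omega) (by omega) (by omega)).symm)
  rw [insert_subset_iff, singleton_subset_iff] at ha hb hd
  have ha' := (FS a).2.1 ha.1 ha.2
  have hb' := (FS b).2.2.1 hb.1 hb.2
  have hd' := (FS d).2.2.2.1 hd.1 hd.2
  have h2 : g D ∅ {2} = 2 := by rw [← h]; exact g_one hD (by omega) (by omega)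
  have hex : ∃ k, 2 ∈ D k ∧ k ≠ c := by
    by_contra hcon
    push Not at hcon
    have : g D ∅ {2} ≤ 1 := by
      unfold g
      rw [card_le_one]
      intro x hx y hy
      simp only [mem_filter, mem_univ, true_and, singleton_subset_iff] at hx hy
      rw [hcon x hx.2, hcon y hy.2]
    omega
  obtain ⟨k, hk2, hkc⟩ := hex
  have hk0 : 0 ∉ D k := by
    intro h0
    apply hkc
    exact uniq_of_g he (by rw [insert_subset_iff, singleton_subset_iff]; exact ⟨h0, hk2⟩)
      (by rw [hc']; decide)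
  have hk4 : 4 ∉ D k := by
    intro h0
    apply hkc
    exact uniq_of_g (E 2 4 (by omega) (by omega) (by omega))
      (by rw [insert_subset_iff, singleton_subset_iff]; exact ⟨hk2, h0⟩) (by rw [hc']; decide)
  have hk' := (FS k).2.2.2.2 hk2 hk0 hk4
  intro A hA
  simp only [X, mem_insert, mem_singleton] at hA
  rcases hA with rfl | rfl | rfl | rfl | rfl
  · exact ⟨c, hc'⟩
  · exact ⟨a, ha'⟩
  · exact ⟨b, hb'⟩
  · exact ⟨d, hd'⟩
  · exact ⟨k, hk'⟩

lemma case5 {D : ι → Finset ℕ} (hD : Good 5 D) : Sing 5 D ∨ CoSing 5 D ∨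
    (∀ A ∈ X, ∃ k, D k = A) ∨ (∀ A ∈ X, ∃ k, D k = range 5 \ A) := by
  have h1 := d_pos hD (by omega)
  have h2 := d_lt hD (by omega)
  rcases (by omega : g D ∅ {0} = 1 ∨ g D ∅ {0} + 1 = 5 ∨ g D ∅ {0} = 2 ∨ g D ∅ {0} = 3)
    with h | h | h | h
  · left; exact sing_of hD (by omega) h
  · right; left; exact cosing_of' hD (by omega) h
  · right; right; left; exact case5a hD h
  · right; right; right
    have h3 := g_cpl_one hD (i := 0) (by omega)
    have h4 := case5a hD.cpl (by omega)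
    intro A hA
    obtain ⟨k, hk⟩ := h4 A hA
    refine ⟨k, ?_⟩
    rw [← hk]
    show D k = range 5 \ (range 5 \ D k)
    rw [Finset.sdiff_sdiff_eq_self (hD.sub k)]

theorem classify {m : ℕ} (hm : 1 ≤ m) {D : ι → Finset ℕ} (hD : Good m D) (hF : FSym m D) :
    Sing m D ∨ CoSing m D ∨ (m = 5 ∧ ∀ A ∈ X, ∃ k, D k = A) ∨
      (m = 5 ∧ ∀ A ∈ X, ∃ k, D k = range 5 \ A) := by
  rcases Nat.lt_or_ge m 6 with h | h
  · have hm' : m = 1 ∨ m = 2 ∨ m = 3 ∨ m = 4 ∨ m = 5 := by omega
    rcases hm' with rfl | rfl | rfl | rfl | rfl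
    · exfalso
      have := d_pos hD (by omega)
      have := d_lt hD (by omega)
      omega
    · left; exact case2 hD
    · rcases case3 hD with h | h
      · left; exact h
      · right; left; exact h
    · rcases case4 hD with h | h
      · left; exact h
      · right; left; exact h
    · rcases case5 hD with h | h | h | h
      · left; exact h
      · right; left; exact h
      · right; right; left; exact ⟨rfl, h⟩
      · right; right; right; exact ⟨rfl, h⟩
  · rcases Nat.even_or_odd' m with ⟨q, hq | hq⟩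
    · subst hq
      rcases even_case (by omega) hD with h | h | ⟨h3, h4, h5⟩
      · left; exact h
      · right; left; exact h
      · subst h3
        exact (not6 hD hF h4 h5).elim
    · obtain ⟨p, hp⟩ : ∃ p, p = q + 1 := ⟨_, rfl⟩
      have hm2 : m = 2 * p - 1 := by omega
      subst hm2
      rcases odd_case (by omega) hD with h | h | ⟨h3, h4⟩
      · left; exact h
      · right; left; exact h
      · subst h3
        exact (not7 hD hF h4).elim

end Pool.Agent.Q81.SP
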