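import Mathlib

/-!
Combinatorial core: families of `m` subsets of `{0,...,m-1}` for which the number of members
containing a given set without two consecutive elements depends only on its size.
-/

open Finset

namespace Pool.Agent.Q81.SP

/-- no two consecutive elements -/
def NA (T : Finset ℕ) : Prop := ∀ i ∈ T, i + 1 ∉ T

variable {ι : Type*} [Fintype ι]

/-- number of members avoiding `P` and containing `R` -/
def g (D : ι → Finset ℕ) (P R : Finset ℕ) : ℕ :=
  (univ.filter fun k => Disjoint P (D k) ∧ R ⊆ D k).card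

structure Good (m : ℕ) (D : ι → Finset ℕ) : Prop where
  sub : ∀ k, D k ⊆ range m
  card : Fintype.card ι = m
  ne : ∀ k, (D k).Nonempty
  nf : ∀ k, D k ≠ range m
  sym : ∀ T T', T ⊆ range m → T' ⊆ range m → NA T → NA T' → T.card = T'.card →
    g D ∅ T = g D ∅ T'
  adj : ∀ i j, i + 1 < m → j + 1 < m → g D ∅ {i, i + 1} = g D ∅ {j, j + 1}

lemma g_split (D : ι → Finset ℕ) (P R : Finset ℕ) (r : ℕ) :
    g D P R = g D (insert r P) R + g D P (insert r R) := by
  classical
  unfold g
  rw [← Finset.card_filter_add_card_filter_not (s := univ.filter fun k => Disjoint P (D k) ∧ R ⊆ D k)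
    (fun k => r ∉ D k)]
  congr 1
  · congr 1
    ext k
    simp only [mem_filter, mem_univ, true_and, disjoint_insert_left]
    tauto
  · congr 1
    ext k
    simp only [mem_filter, mem_univ, true_and, insert_subset_iff, not_not]
    tauto

lemma NA.mono {T T' : Finset ℕ} (h : NA T) (h' : T' ⊆ T) : NA T' :=
  fun i hi hi' => h i (h' hi) (h' hi')

lemma gsym {m : ℕ} {D : ι → Finset ℕ} (hD : Good m D) :
    ∀ (a : ℕ) (P R P' R' : Finset ℕ), P.card = a → P'.card = a → R.card = R'.card →
      Disjoint P R → Disjoint P' R' → P ∪ R ⊆ range m → P' ∪ R' ⊆ range m →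
      NA (P ∪ R) → NA (P' ∪ R') → g D P R = g D P' R' := by
  intro a
  induction a with
  | zero =>
    intro P R P' R' hP hP' hR _ _ h1 h2 h3 h4
    rw [Finset.card_eq_zero] at hP hP'
    subst hP hP'
    simp only [empty_union] at h1 h2 h3 h4
    exact hD.sym R R' h1 h2 h3 h4 hR
  | succ a ih =>
    intro P R P' R' hP hP' hR hd hd' h1 h2 h3 h4
    obtain ⟨p, P0, hp, rfl, hP0⟩ := Finset.card_eq_succ.mp hP
    obtain ⟨p', P0', hp', rfl, hP0'⟩ := Finset.card_eq_succ.mp hP'
    rw [disjoint_insert_left] at hd hd'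
    have e1 := g_split D P0 R p
    have e2 := g_split D P0' R' p'
    have s1 : P0 ∪ R ⊆ insert p P0 ∪ R := union_subset_union_left (subset_insert _ _)
    have s2 : P0' ∪ R' ⊆ insert p' P0' ∪ R' := union_subset_union_left (subset_insert _ _)
    have t1 : P0 ∪ insert p R = insert p P0 ∪ R := by
      ext x; simp only [mem_union, mem_insert]; tauto
    have t2 : P0' ∪ insert p' R' = insert p' P0' ∪ R' := by
      ext x; simp only [mem_union, mem_insert]; tauto
    have i1 := ih P0 R P0' R' hP0 hP0' hR hd.2 hd'.2 (s1.trans h1) (s2.trans h2) (h3.mono s1)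
      (h4.mono s2)
    have i2 := ih P0 (insert p R) P0' (insert p' R') hP0 hP0'
      (by rw [card_insert_of_notMem hd.1, card_insert_of_notMem hd'.1, hR])
      (by rw [disjoint_insert_right]; exact ⟨hp, hd.2⟩)
      (by rw [disjoint_insert_right]; exact ⟨hp', hd'.2⟩)
      (by rw [t1]; exact h1) (by rw [t2]; exact h2) (by rw [t1]; exact h3) (by rw [t2]; exact h4)
    omega

lemma g_empty (D : ι → Finset ℕ) : g D ∅ ∅ = Fintype.card ι := by
  unfold g; simp

lemma NA_singleton (i : ℕ) : NA {i} := by
  intro j hj; simp at hj ⊢; omega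

lemma g_one {m : ℕ} {D : ι → Finset ℕ} (hD : Good m D) {i j : ℕ} (hi : i < m) (hj : j < m) :
    g D ∅ {i} = g D ∅ {j} :=
  hD.sym _ _ (by simpa using hi) (by simpa using hj) (NA_singleton i) (NA_singleton j) (by simp)

/-- the complementary family -/
def cpl (m : ℕ) (D : ι → Finset ℕ) : ι → Finset ℕ := fun k => range m \ D k

lemma g_cpl {m : ℕ} (D : ι → Finset ℕ) {P R : Finset ℕ} (hP : P ⊆ range m) (hR : R ⊆ range m) :
    g (cpl m D) P R = g D R P := by
  unfold g cpl
  congr 1
  ext k
  simp only [mem_filter, mem_univ, true_and]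
  constructor
  · rintro ⟨h1, h2⟩
    refine ⟨?_, ?_⟩
    · rw [Finset.disjoint_left]
      intro x hx hx'
      exact (mem_sdiff.mp (h2 hx)).2 hx'
    · intro x hx
      by_contra hc
      exact Finset.disjoint_left.mp h1 hx (mem_sdiff.mpr ⟨hP hx, hc⟩)
  · rintro ⟨h1, h2⟩
    refine ⟨?_, ?_⟩
    · rw [Finset.disjoint_left]
      intro x hx hx'
      exact (mem_sdiff.mp hx').2 (h2 hx)
    · intro x hx
      exact mem_sdiff.mpr ⟨hR hx, Finset.disjoint_left.mp h1 hx⟩

lemma Good.cpl {m : ℕ} {D : ι → Finset ℕ} (hD : Good m D) : Good m (cpl m D) where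
  sub := fun k => sdiff_subset
  card := hD.card
  ne := fun k => by
    rw [Pool.Agent.Q81.SP.cpl, sdiff_nonempty]
    intro h
    exact hD.nf k (Subset.antisymm (hD.sub k) h)
  nf := fun k h => by
    obtain ⟨x, hx⟩ := hD.ne k
    have : x ∈ range m \ D k := by
      have h' : range m \ D k = range m := h
      rw [h']; exact hD.sub k hx
    exact (mem_sdiff.mp this).2 hx
  sym := fun T T' hT hT' n n' hc => by
    rw [g_cpl D (empty_subset _) hT, g_cpl D (empty_subset _) hT']
    exact gsym hD T.card T ∅ T' ∅ rfl hc.symm rfl (disjoint_empty_right _) (disjoint_empty_right _)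
      (by simpa using hT) (by simpa using hT') (by simpa using n) (by simpa using n')
  adj := fun i j hi hj => by
    rw [g_cpl D (empty_subset _) (by intro x; simp; omega),
      g_cpl D (empty_subset _) (by intro x; simp; omega)]
    have a1 := g_split D ∅ ∅ i
    have a2 := g_split D ∅ {i} (i+1)
    have a3 := g_split D ∅ ∅ (i+1)
    have a4 := g_split D {i+1} ∅ i
    have b1 := g_split D ∅ ∅ j
    have b2 := g_split D ∅ {j} (j+1)
    have b3 := g_split D ∅ ∅ (j+1)
    have b4 := g_split D {j+1} ∅ j
    have c := hD.adj i j hi hj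
    have d := g_one hD (i := i) (j := j) (by omega) (by omega)
    have d' := g_one hD (i := i+1) (j := j+1) (by omega) (by omega)
    simp only [insert_empty_eq] at *
    rw [Finset.pair_comm (i+1) i] at a2
    rw [Finset.pair_comm (j+1) j] at b2
    omega

/-- row-wise reading of equality of counts -/
lemma all_of_eq {D : ι → Finset ℕ} {R R' : Finset ℕ} (h : R ⊆ R') (he : g D ∅ R = g D ∅ R')
    (k : ι) (hk : R ⊆ D k) : R' ⊆ D k := by
  classical
  unfold g at he
  have hs : (univ.filter fun k => Disjoint (∅ : Finset ℕ) (D k) ∧ R' ⊆ D k) ⊆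
      (univ.filter fun k => Disjoint (∅ : Finset ℕ) (D k) ∧ R ⊆ D k) := by
    intro x
    simp only [mem_filter, mem_univ, true_and]
    rintro ⟨h1, h2⟩
    exact ⟨h1, h.trans h2⟩
  have := Finset.eq_of_subset_of_card_le hs (le_of_eq he)
  have hx : k ∈ (univ.filter fun k => Disjoint (∅ : Finset ℕ) (D k) ∧ R ⊆ D k) := by
    simp [hk]
  rw [← this] at hx
  simp only [mem_filter, mem_univ, true_and] at hx
  exact hx.2

/-- consecutive positions are not always equal -/
lemma exists_ne {m : ℕ} {D : ι → Finset ℕ} (hD : Good m D) (hm : 2 ≤ m)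
    {i : ℕ} (hi : i + 1 < m) : ∃ k, ¬ (i ∈ D k ↔ i + 1 ∈ D k) := by
  classical
  by_contra hcon
  push Not at hcon
  have e1 : g D ∅ {i} = g D ∅ {i, i+1} := by
    unfold g
    congr 1
    ext k
    simp only [mem_filter, mem_univ, true_and, insert_subset_iff, singleton_subset_iff]
    have := hcon k
    tauto
  have all : ∀ j, j + 1 < m → ∀ k, (j ∈ D k ↔ j + 1 ∈ D k) := by
    intro j hj k
    have f1 : g D ∅ {j} = g D ∅ {j, j+1} := by
      rw [g_one hD (i := j) (j := i) (by omega) (by omega), e1, hD.adj i j hi hj]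
    have f2 : g D ∅ {j+1} = g D ∅ {j, j+1} := by
      rw [g_one hD (i := j+1) (j := i) (by omega) (by omega), e1, hD.adj i j hi hj]
    constructor
    · intro h
      have := all_of_eq (R := {j}) (R' := {j, j+1}) (by simp) f1 k (by simpa using h)
      exact this (by simp)
    · intro h
      have := all_of_eq (R := {j+1}) (R' := {j, j+1}) (by simp) f2 k (by simpa using h)
      exact this (by simp)
  have all0 : ∀ k j, j < m → (0 ∈ D k ↔ j ∈ D k) := by
    intro k j
    induction j with
    | zero => intro _; rfl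
    | succ j ih => intro hj; rw [ih (by omega), all j hj k]
  have hι : 0 < Fintype.card ι := by rw [hD.card]; omega
  obtain ⟨k⟩ := Fintype.card_pos_iff.mp hι
  obtain ⟨x, hx⟩ := hD.ne k
  have hx' := mem_range.mp (hD.sub k hx)
  apply hD.nf k
  apply Subset.antisymm (hD.sub k)
  intro y hy
  exact (all0 k y (mem_range.mp hy)).mp ((all0 k x hx').mpr hx)

/-- if nonadjacent positions always agree somewhere, contradiction -/
lemma lt_pair {m : ℕ} {D : ι → Finset ℕ} (hD : Good m D) (hm : 4 ≤ m) :
    ∃ k, ¬ (0 ∈ D k → 2 ∈ D k) := by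
  classical
  by_contra hcon
  push Not at hcon
  have e1 : g D ∅ {0} = g D ∅ {0, 2} := by
    unfold g
    congr 1
    ext k
    simp only [mem_filter, mem_univ, true_and, insert_subset_iff, singleton_subset_iff]
    have := hcon k
    tauto
  have all : ∀ i j, i < m → j < m → i + 1 < j → ∀ k, (i ∈ D k ↔ j ∈ D k) := by
    intro i j hi hj hij k
    have ee : g D ∅ {i, j} = g D ∅ {0, 2} := hD.sym _ _
      (by intro x; simp; omega) (by intro x; simp; omega)
      (by intro x; simp; omega) (by intro x; simp; omega)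
      (by rw [card_pair (by omega), card_pair (by omega)])
    have f1 : g D ∅ {i} = g D ∅ {i, j} := by
      rw [g_one hD (i := i) (j := 0) hi (by omega), e1, ee]
    have f2 : g D ∅ {j} = g D ∅ {i, j} := by
      rw [g_one hD (i := j) (j := 0) hj (by omega), e1, ee]
    constructor
    · intro h
      have := all_of_eq (R := {i}) (R' := {i, j}) (by simp) f1 k (by simpa using h)
      exact this (by simp)
    · intro h
      have := all_of_eq (R := {j}) (R' := {i, j}) (by simp) f2 k (by simpa using h)
      exact this (by simp)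
  obtain ⟨k, hk⟩ := exists_ne hD (by omega) (i := 0) (by omega)
  apply hk
  rw [all 0 3 (by omega) (by omega) (by omega) k, ← all 1 3 (by omega) (by omega) (by omega) k]

end Pool.Agent.Q81.SP
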