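import Mathlib

/-!
Definitions: descent sets, fundamental quasisymmetric functions, Schur functions.
Variables are `x_0, x_1, ...`, positions of a permutation of `Fin (m+1)` are `0, ..., m`.
-/

open Finset

namespace Pool.Agent.Q81.SP

/-- descent set of a permutation: all `i` with `π (i+1) < π i` -/
def des {m : ℕ} (π : Equiv.Perm (Fin (m + 1))) : Finset (Fin m) :=
  univ.filter fun i => π i.succ < π i.castSucc

/-- exponent vector of the monomial `∏ x_{w k}` -/
noncomputable def expo {ι : Type*} [Fintype ι] (w : ι → ℕ) : ℕ →₀ ℕ :=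
  ∑ k, Finsupp.single (w k) 1

/-- `w` is weakly increasing, strictly at the positions of `D`, and has exponent vector `μ` -/
def Word {m : ℕ} (D : Finset (Fin m)) (μ : ℕ →₀ ℕ) (w : Fin (m + 1) → ℕ) : Prop :=
  (∀ i : Fin m, w i.castSucc ≤ w i.succ) ∧ (∀ i ∈ D, w i.castSucc < w i.succ) ∧ expo w = μ

/-- Gessel's fundamental quasisymmetric function of degree `m + 1`: the coefficient at an exponent
vector is the number of words with this exponent vector -/
noncomputable def fund {m : ℕ} (D : Finset (Fin m)) : MvPowerSeries ℕ ℤ := fun μ =>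
  (Nat.card {w : Fin (m + 1) → ℕ // Word D μ w} : ℤ)

/-- the quasisymmetric generating function of a set of permutations -/
noncomputable def Q {m : ℕ} (S : Finset (Equiv.Perm (Fin (m + 1)))) : MvPowerSeries ℕ ℤ :=
  ∑ π ∈ S, fund (des π)

/-- invariance under all permutations of the variables -/
def IsSymm (f : MvPowerSeries ℕ ℤ) : Prop :=
  ∀ (σ : Equiv.Perm ℕ) (μ : ℕ →₀ ℕ),
    MvPowerSeries.coeff (μ.mapDomain σ) f = MvPowerSeries.coeff μ f

/-- exponent vector of a tableau -/
noncomputable def cont {Λ : YoungDiagram} (T : SemistandardYoungTableau Λ) : ℕ →₀ ℕ :=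
  ∑ c ∈ Λ.cells, Finsupp.single (T c.1 c.2) 1

/-- Schur function: generating function of semistandard tableaux -/
noncomputable def schur (Λ : YoungDiagram) : MvPowerSeries ℕ ℤ := fun μ =>
  (Nat.card {T : SemistandardYoungTableau Λ // cont T = μ} : ℤ)

end Pool.Agent.Q81.SP
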