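import Pool.Agent.Q81.SP.Hook

open Finset

namespace Pool.Agent.Q81.SP

lemma mem_hookT {m : ℕ} (x : ℕ × ℕ) :
    x ∈ (hook m).transpose ↔ x = (0, 0) ∨ x = (0, 1) ∨ (x.2 = 0 ∧ x.1 < m) := by
  rw [YoungDiagram.mem_transpose, mem_hook]
  obtain ⟨a, b⟩ := x
  simp only [Prod.swap_prod_mk, Prod.mk.injEq]
  constructor
  · rintro (h | h | h)
    · left; omega
    · right; left; omega
    · right; right; exact h
  · rintro (h | h | h)
    · left; omega
    · right; left; omega
    · right; right; exact h

theorem schur_hookT {m : ℕ} (hm : 1 ≤ m) :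
    schur (hook m).transpose = ∑ i : Fin m, fund ((univ : Finset (Fin m)).erase i) := by
  apply schur_expand (fun i : Fin m => (univ : Finset (Fin m)).erase i)
    (fun (i : Fin m) (k : Fin (m+1)) => (rd i k).swap)
  · intro i a b h
    exact Fin.ext (rd_inj i (Prod.swap_injective h))
  · intro i x
    rw [YoungDiagram.mem_transpose, rd_img i.2 x.swap]
    constructor
    · rintro ⟨k, hk, h⟩; exact ⟨⟨k, hk⟩, by rw [← Prod.swap_swap x, ← h]⟩
    · rintro ⟨k, h⟩; exact ⟨k, k.2, by rw [← h, Prod.swap_swap]⟩
  · intro i a b h h'
    rw [Prod.fst_swap, Prod.fst_swap] at h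
    rw [Prod.snd_swap, Prod.snd_swap] at h'
    have := rd_col i h h'
    rw [Fin.le_def]; omega
  · intro i a b h h'
    rw [Prod.snd_swap, Prod.snd_swap] at h
    rw [Prod.fst_swap, Prod.fst_swap] at h'
    have hab := rd_row i h h'
    have hne : (a : ℕ) ≠ i + 1 ∧ (b : ℕ) ≠ i + 1 := by
      unfold rd at h h'
      split_ifs at h h' <;> simp only at h h' <;> omega
    have hab' : (a : ℕ) ≠ b := by
      intro h3; rw [h3] at h'; exact lt_irrefl _ h'
    by_cases hai : (a : ℕ) = i
    · refine ⟨⟨i + 1, by omega⟩, ?_, ?_, ?_⟩
      · rw [Fin.le_def]; simp; omega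
      · rw [Fin.le_def]; simp; omega
      · rw [mem_erase]
        refine ⟨?_, mem_univ _⟩
        intro h4
        have := congrArg Fin.val h4
        simp at this
    · refine ⟨⟨a, by omega⟩, ?_, ?_, ?_⟩
      · rw [Fin.le_def]; simp
      · rw [Fin.le_def]; simp; omega
      · rw [mem_erase]
        refine ⟨?_, mem_univ _⟩
        intro h4
        exact hai (congrArg Fin.val h4)
  · intro T
    classical
    have hex : ∃ p, p = m ∨ T 0 1 < T p 0 := ⟨m, Or.inl rfl⟩
    set p := Nat.find hex with hp
    have hps := Nat.find_spec hex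
    have hpm : p ≤ m := Nat.find_min' hex (Or.inl rfl)
    have hmin : ∀ j < p, T j 0 ≤ T 0 1 := by
      intro j hj
      have := Nat.find_min hex hj
      push Not at this
      exact this.2
    have h0 : T 0 0 ≤ T 0 1 := T.row_weak (by omega) ((mem_hookT _).mpr (by simp))
    have hp1 : 1 ≤ p := by
      by_contra hc
      have : p = 0 := by omega
      rw [← hp, this] at hps
      rcases hps with h | h <;> omega
    have rw' : ∀ a b, a < b → b < m → T a 0 < T b 0 := by
      intro a b hab hb
      exact T.col_strict hab ((mem_hookT _).mpr (Or.inr (Or.inr ⟨rfl, hb⟩)))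
    have rw'' : ∀ a b, a ≤ b → b < m → T a 0 ≤ T b 0 := by
      intro a b hab hb
      rcases Nat.eq_or_lt_of_le hab with h | h
      · rw [h]
      · exact (rw' a b h hb).le
    refine ⟨⟨p-1, by omega⟩, ?_, ?_⟩
    · intro k
      have hk := k.2
      simp only [Fin.val_castSucc, Fin.val_succ]
      unfold rd
      split_ifs with h1 h2 h3 h4 h5 h6 h7
      all_goals simp only [Prod.swap_prod_mk]
      · exact rw'' _ _ (by omega) (by omega)
      · exact (hmin _ (by omega))
      · omega
      · omega
      · omega
      · show T 0 1 ≤ T (k + 1 - 1) 0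
        rw [← hp] at hps
        rcases hps with h | h
        · omega
        · exact h.le.trans (rw'' _ _ (by omega) (by omega))
      · omega
      · omega
      · exact rw'' _ _ (by omega) (by omega)
    · intro k hk
      rw [mem_erase] at hk
      have hk2 : (k : ℕ) ≠ p - 1 := fun h => hk.1 (Fin.ext h)
      have hk := k.2
      simp only [Fin.val_castSucc, Fin.val_succ]
      unfold rd
      split_ifs with h1 h2 h3 h4 h5 h6 h7
      all_goals simp only [Prod.swap_prod_mk]
      · exact rw' _ _ (by omega) (by omega)
      · omega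
      · omega
      · omega
      · omega
      · show T 0 1 < T (k + 1 - 1) 0
        rw [← hp] at hps
        rcases hps with h | h
        · omega
        · exact h.trans_le (rw'' _ _ (by omega) (by omega))
      · omega
      · omega
      · exact rw' _ _ (by omega) (by omega)
  · intro T
    have key : ∀ i i' : Fin m, i < i' →
        Val T (fun k : Fin (m+1) => (rd i k).swap) ((univ : Finset (Fin m)).erase i) →
        Val T (fun k : Fin (m+1) => (rd i' k).swap) ((univ : Finset (Fin m)).erase i') → False := by
      intro i i' hii h h'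
      rw [Fin.lt_def] at hii
      have h1 := h'.1 i'
      simp only [Fin.val_castSucc, Fin.val_succ] at h1
      unfold rd at h1
      rw [if_pos (le_refl _), if_neg (by omega), if_pos rfl] at h1
      have h2 := h.2 ⟨i+1, by omega⟩ (by
        rw [mem_erase]
        refine ⟨?_, mem_univ _⟩
        intro h4
        have := congrArg Fin.val h4
        simp at this)
      simp only [Fin.castSucc_mk, Fin.succ_mk] at h2
      unfold rd at h2
      rw [if_neg (by omega), if_pos rfl, if_neg (by omega), if_neg (by omega)] at h2
      simp only [Nat.add_sub_cancel, Prod.swap_prod_mk] at h1 h2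
      have h3 : T (i + 1) 0 ≤ T i' 0 := by
        rcases Nat.eq_or_lt_of_le (show (i : ℕ) + 1 ≤ i' by omega) with h | h
        · rw [h]
        · exact (T.col_strict h ((mem_hookT _).mpr (Or.inr (Or.inr ⟨rfl, i'.2⟩)))).le
      omega
    intro i i' h h'
    rcases lt_trichotomy i i' with h3 | h3 | h3
    · exact (key i i' h3 h h').elim
    · exact h3
    · exact (key i' i h3 h' h).elim

end Pool.Agent.Q81.SP
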