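import Pool.Agent.Q81.SP.Rect
import Pool.Agent.Q81.SP.HookT

open Finset

namespace Pool.Agent.Q81.SP

set_option maxRecDepth 100000

lemma X_eq : X = {{0,2,4},{0,3},{1,3},{1,4},{2}} := rfl

lemma sum_X (f : Finset ℕ → MvPowerSeries ℕ ℤ) : ∑ A ∈ X, f A =
    f {0,2,4} + (f {0,3} + (f {1,3} + (f {1,4} + f {2}))) := by
  rw [X_eq, sum_insert (by decide), sum_insert (by decide), sum_insert (by decide),
    sum_insert (by decide), sum_singleton]

lemma X_sum1 : ∑ A ∈ X, fund (co 5 A) = schur rect.transpose := by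
  rw [sum_X, schur_rectT, Fin.sum_univ_five]
  have e1 : co 5 {0,2,4} = {1,3} := by decide
  have e2 : co 5 {0,3} = {1,2,4} := by decide
  have e3 : co 5 {1,3} = {0,2,4} := by decide
  have e4 : co 5 {1,4} = {0,2,3} := by decide
  have e5 : co 5 {2} = {0,1,3,4} := by decide
  rw [e1, e2, e3, e4, e5]
  simp only [D3', Matrix.cons_val]
  abel

lemma X_sum2 : ∑ A ∈ X, fund (co 5 (range 5 \ A)) = schur rect := by
  rw [sum_X, schur_rect, Fin.sum_univ_five]
  have e1 : co 5 (range 5 \ {0,2,4}) = {0,2,4} := by decide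
  have e2 : co 5 (range 5 \ {0,3}) = {0,3} := by decide
  have e3 : co 5 (range 5 \ {1,3}) = {1,3} := by decide
  have e4 : co 5 (range 5 \ {1,4}) = {1,4} := by decide
  have e5 : co 5 (range 5 \ {2}) = {2} := by decide
  rw [e1, e2, e3, e4, e5]
  simp only [D3, Matrix.cons_val]
  abel

lemma hook_card {m : ℕ} (hm : 1 ≤ m) : (hook m).card = m + 1 := by
  show (insert ((0 : ℕ), (0 : ℕ)) (insert (1, 0) ((range m).image fun j => ((0 : ℕ), j)))).card = _
  rw [insert_eq_of_mem, card_insert_of_notMem, card_image_of_injective, card_range]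
  · intro a b h
    simpa using h
  · simp
  · simp; omega

lemma transpose_card (Λ : YoungDiagram) : Λ.transpose.card = Λ.card := by
  have e : Λ.transpose.cells = Λ.cells.image Prod.swap := by
    ext x
    rw [YoungDiagram.mem_cells, YoungDiagram.mem_transpose, mem_image]
    constructor
    · intro h; exact ⟨x.swap, (YoungDiagram.mem_cells _).mpr h, Prod.swap_swap x⟩
    · rintro ⟨y, hy, rfl⟩; rw [Prod.swap_swap]; exact (YoungDiagram.mem_cells _).mp hy
  show Λ.transpose.cells.card = Λ.cells.card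
  rw [e, card_image_of_injective _ Prod.swap_injective]

lemma rect_card : rect.card = 6 := by
  show (range 2 ×ˢ range 3).card = 6
  simp

theorem main {m : ℕ} (hm : 1 ≤ m) {S : Finset (Equiv.Perm (Fin (m + 1)))} (hc : S.card = m)
    (h1 : (1 : Equiv.Perm (Fin (m+1))) ∉ S) (h2 : Fin.revPerm ∉ S) (h : IsSymm (Q S)) :
    ∃ Λ : YoungDiagram, Λ.card = m + 1 ∧ Q S = schur Λ ∧
      (Λ = hook m ∨ Λ = (hook m).transpose ∨ (m = 5 ∧ (Λ = rect ∨ Λ = rect.transpose))) := by
  rcases main_cases hm hc h1 h2 h with h | h | ⟨rfl, h⟩ | ⟨rfl, h⟩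
  · refine ⟨(hook m).transpose, ?_, ?_, Or.inr (Or.inl rfl)⟩
    · rw [transpose_card, hook_card hm]
    · rw [h, schur_hookT hm]
  · refine ⟨hook m, hook_card hm, ?_, Or.inl rfl⟩
    rw [h, schur_hook hm]
  · refine ⟨rect.transpose, ?_, ?_, Or.inr (Or.inr ⟨rfl, Or.inr rfl⟩)⟩
    · rw [transpose_card, rect_card]
    · rw [h, X_sum1]
  · refine ⟨rect, rect_card, ?_, Or.inr (Or.inr ⟨rfl, Or.inl rfl⟩)⟩
    rw [h, X_sum2]

end Pool.Agent.Q81.SP
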