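import Pool.Agent.Q81.SP.Defs
import Pool.Agent.Q81.SP.Classify

open Finset

namespace Pool.Agent.Q81.SP

lemma expo_apply {ι : Type*} [Fintype ι] (w : ι → ℕ) (v : ℕ) :
    expo w v = (univ.filter fun k => w k = v).card := by
  classical
  unfold expo
  rw [Finsupp.finsetSum_apply, card_eq_sum_ones, sum_filter]
  apply sum_congr rfl
  intro k _
  rw [Finsupp.single_apply]

/-- a monotone word is determined by its exponent vector -/
lemma word_unique {n : ℕ} {w w' : Fin n → ℕ} (h : Monotone w) (h' : Monotone w')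
    (he : expo w = expo w') : w = w' := by
  apply List.ofFn_injective
  apply List.Perm.eq_of_pairwise (le := (· ≤ ·))
  · intro a b _ _ h1 h2; exact le_antisymm h1 h2
  · rw [List.pairwise_ofFn]; intro i j hij; exact h hij.le
  · rw [List.pairwise_ofFn]; intro i j hij; exact h' hij.le
  · rw [← Multiset.coe_eq_coe, ← Fin.univ_val_map, ← Fin.univ_val_map]
    ext v
    rw [Multiset.count_map, Multiset.count_map]
    have := DFunLike.congr_fun he v
    rw [expo_apply, expo_apply] at this
    have e : ∀ u : Fin n → ℕ, (Multiset.filter (fun a => v = u a) univ.val).card =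
        (univ.filter fun k => u k = v).card := by
      intro u
      rw [Finset.card_def, Finset.filter_val]
      congr 2
      ext a
      exact eq_comm
    rw [e, e, this]

lemma fund_coeff {m : ℕ} (D : Finset (Fin m)) {w : Fin (m+1) → ℕ}
    (h : ∀ i : Fin m, w i.castSucc ≤ w i.succ) [Decidable (∀ i ∈ D, w i.castSucc < w i.succ)] :
    MvPowerSeries.coeff (expo w) (fund D) =
      if (∀ i ∈ D, w i.castSucc < w i.succ) then (1 : ℤ) else 0 := by
  show fund D (expo w) = _
  unfold fund
  have huniq : ∀ u : Fin (m+1) → ℕ, Word D (expo w) u → u = w := by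
    intro u hu
    exact word_unique (Fin.monotone_iff_le_succ.mpr hu.1) (Fin.monotone_iff_le_succ.mpr h) hu.2.2
  split_ifs with hc
  · have : Nat.card {u : Fin (m+1) → ℕ // Word D (expo w) u} = 1 := by
      rw [Nat.card_eq_one_iff_unique]
      exact ⟨⟨fun a b => Subtype.ext ((huniq _ a.2).trans (huniq _ b.2).symm)⟩,
        ⟨⟨w, h, hc, rfl⟩⟩⟩
    rw [this]; rfl
  · have : IsEmpty {u : Fin (m+1) → ℕ // Word D (expo w) u} := by
      constructor
      rintro ⟨u, hu⟩
      apply hc
      rw [← huniq u hu]
      exact hu.2.1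
    rw [Nat.card_of_isEmpty]; rfl

/-- the word which stays constant exactly at the positions of `T` -/
def wT (T : Finset ℕ) (k : ℕ) : ℕ := ((range k).filter (· ∉ T)).card

lemma wT_succ (T : Finset ℕ) (k : ℕ) : wT T (k+1) = wT T k + if k ∈ T then 0 else 1 := by
  unfold wT
  rw [range_add_one, filter_insert]
  by_cases h : k ∈ T
  · simp [h]
  · rw [if_pos h, if_neg h, card_insert_of_notMem (by simp)]

lemma wT_mono (T : Finset ℕ) : Monotone (wT T) := by
  apply monotone_nat_of_le_succ
  intro k
  rw [wT_succ]; omega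

/-- ascent sets as sets of naturals -/
def asc {m : ℕ} (π : Equiv.Perm (Fin (m + 1))) : Finset ℕ := (des π)ᶜ.map Fin.valEmbedding

lemma mem_asc {m : ℕ} {π : Equiv.Perm (Fin (m + 1))} {i : ℕ} :
    i ∈ asc π ↔ ∃ h : i < m, (⟨i, h⟩ : Fin m) ∉ des π := by
  unfold asc
  rw [mem_map]
  constructor
  · rintro ⟨j, hj, rfl⟩
    exact ⟨j.2, by simpa using hj⟩
  · rintro ⟨h, hj⟩
    exact ⟨⟨i, h⟩, by simpa using hj, rfl⟩

lemma des_eq {m : ℕ} {π : Equiv.Perm (Fin (m + 1))} {i : Fin m} :
    i ∈ des π ↔ i.val ∉ asc π := by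
  rw [mem_asc]
  push Not
  exact ⟨fun h _ => h, fun h => h i.2⟩

def F {m : ℕ} (S : Finset (Equiv.Perm (Fin (m + 1)))) : {π // π ∈ S} → Finset ℕ :=
  fun π => asc π.1

lemma Q_coeff {m : ℕ} (S : Finset (Equiv.Perm (Fin (m + 1)))) {T : Finset ℕ}
    (hT : T ⊆ range m) :
    MvPowerSeries.coeff (expo fun k : Fin (m+1) => wT T k) (Q S) = (g (F S) ∅ T : ℤ) := by
  classical
  unfold Q g
  rw [map_sum, ← Finset.sum_coe_sort, card_eq_sum_ones, sum_filter, Nat.cast_sum]
  apply sum_congr rfl
  rintro ⟨π, hπ⟩ _
  rw [fund_coeff (des π) (w := fun k : Fin (m+1) => wT T k)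
    (fun i => wT_mono T (by simp))]
  have : (∀ i ∈ des π, wT T (i.castSucc : Fin (m+1)) < wT T (i.succ : Fin (m+1))) ↔
      (Disjoint ∅ (F S ⟨π, hπ⟩) ∧ T ⊆ F S ⟨π, hπ⟩) := by
    constructor
    · intro h
      refine ⟨disjoint_empty_left _, ?_⟩
      intro i hi
      show i ∈ asc π
      have him := mem_range.mp (hT hi)
      rw [mem_asc]
      refine ⟨him, fun hd => ?_⟩
      have := h _ hd
      rw [Fin.val_castSucc, Fin.val_succ, wT_succ, if_pos hi] at this
      simp at this
    · rintro ⟨_, h⟩ i hi
      rw [Fin.val_castSucc, Fin.val_succ, wT_succ, if_neg]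
      · omega
      · intro hc
        rw [des_eq] at hi
        exact hi (h hc)
  simp only [this]
  split_ifs <;> rfl

lemma exists_perm {μ μ' : ℕ →₀ ℕ} (h : ∀ j, 1 ≤ j → Nat.card {v // μ v = j} =
    Nat.card {v // μ' v = j}) : ∃ σ : Equiv.Perm ℕ, μ.mapDomain σ = μ' := by
  classical
  have key : ∀ j, Nonempty ({v // μ v = j} ≃ {v // μ' v = j}) := by
    intro j
    rcases Nat.eq_zero_or_pos j with hj | hj
    · subst hj
      have inf : ∀ ν : ℕ →₀ ℕ, Infinite {v // ν v = 0} := by
        intro ν
        have : ({v | ν v = 0} : Set ℕ).Infinite := by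
          have h1 : ({v | ν v = 0} : Set ℕ) = (↑ν.support : Set ℕ)ᶜ := by
            ext v; simp
          rw [h1]
          exact (Finset.finite_toSet _).infinite_compl
        exact this.to_subtype
      have := inf μ
      have := inf μ'
      exact nonempty_equiv_of_countable
    · have fin : ∀ ν : ℕ →₀ ℕ, Finite {v // ν v = j} := by
        intro ν
        have : ({v | ν v = j} : Set ℕ).Finite := by
          apply (Finset.finite_toSet ν.support).subset
          intro v hv
          simp only [Set.mem_ofPred_eq] at hv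
          simp only [Finset.mem_coe, Finsupp.mem_support_iff]
          omega
        exact this.to_subtype
      have := fin μ
      have := fin μ'
      exact (Finite.card_eq).mp (h j hj)
  let e : ∀ j, {v // μ v = j} ≃ {v // μ' v = j} := fun j => (key j).some
  refine ⟨Equiv.ofFiberEquiv e, ?_⟩
  ext v
  rw [Finsupp.mapDomain_equiv_apply]
  have := Equiv.ofFiberEquiv_map e ((Equiv.ofFiberEquiv e).symm v)
  rw [Equiv.apply_symm_apply] at this
  exact this.symm

lemma expo_wT (m : ℕ) (T : Finset ℕ) (v : ℕ) :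
    expo (fun k : Fin (m+1) => wT T k) v = ((range (m+1)).filter fun k => wT T k = v).card := by
  classical
  rw [expo_apply, card_eq_sum_ones, card_eq_sum_ones, sum_filter, sum_filter,
    Fin.sum_univ_eq_sum_range (fun k => if wT T k = v then 1 else 0) (m+1)]

/-- multiplicities in the multiset of block sizes -/
lemma fib_count (m : ℕ) (T : Finset ℕ) (j : ℕ) (hj : 1 ≤ j) :
    Nat.card {v // expo (fun k : Fin (m+1) => wT T k) v = j} = (fib m T).count j := by
  classical
  unfold fib
  rw [Multiset.count_map, ← Finset.filter_val, ← Finset.card_def]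
  have : ∀ v, expo (fun k : Fin (m+1) => wT T k) v = j ↔ v ∈ (range (m+1)).filter
      (fun v => j = ((range (m+1)).filter fun k => ((range k).filter (· ∉ T)).card = v).card) := by
    intro v
    rw [expo_wT, mem_filter, mem_range]
    constructor
    · intro h
      refine ⟨?_, h.symm⟩
      obtain ⟨k, hk⟩ := card_pos.mp (lt_of_lt_of_le Nat.zero_lt_one (hj.trans h.ge))
      rw [mem_filter, mem_range] at hk
      have : wT T k ≤ k := by
        unfold wT
        calc _ ≤ (range k).card := card_filter_le _ _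
          _ = k := card_range k
      omega
    · rintro ⟨_, h⟩; exact h.symm
  rw [Nat.card_congr (Equiv.subtypeEquivRight this), Nat.card_eq_fintype_card, Fintype.card_coe]

lemma fsym_of {m : ℕ} {S : Finset (Equiv.Perm (Fin (m + 1)))} (h : IsSymm (Q S)) :
    FSym m (F S) := by
  intro T T' hT hT' he
  obtain ⟨σ, hσ⟩ := exists_perm (μ := expo (fun k : Fin (m+1) => wT T k))
    (μ' := expo (fun k : Fin (m+1) => wT T' k)) (fun j hj => by
      rw [fib_count m T j hj, fib_count m T' j hj, he])
  have h1 := h σ (expo (fun k : Fin (m+1) => wT T k))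
  rw [hσ, Q_coeff S hT, Q_coeff S hT'] at h1
  exact_mod_cast h1.symm

end Pool.Agent.Q81.SP
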