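import Pool.Agent.Q81.SP.Blocks

open Finset

namespace Pool.Agent.Q81.SP

lemma eq_one_of_strictMono {n : ℕ} {π : Equiv.Perm (Fin n)} (h : StrictMono π) : π = 1 := by
  have : (π : Fin n → Fin n) = id := h.eq_id
  ext i
  rw [this]; rfl

lemma eq_rev_of_strictAnti {n : ℕ} {π : Equiv.Perm (Fin n)} (h : StrictAnti π) :
    π = Fin.revPerm := by
  have h1 : StrictMono (Fin.revPerm * π : Equiv.Perm (Fin n)) := by
    intro a b hab
    show Fin.rev (π a) < Fin.rev (π b)
    rw [Fin.rev_lt_rev]
    exact h hab
  have h2 := eq_one_of_strictMono h1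
  ext i
  have := Equiv.congr_fun h2 i
  have h3 : Fin.rev (π i) = i := this
  rw [Fin.revPerm_apply, ← h3, Fin.rev_rev]
  rw [h3]

lemma good_of {m : ℕ} {S : Finset (Equiv.Perm (Fin (m + 1)))} (hc : S.card = m)
    (h1 : (1 : Equiv.Perm (Fin (m+1))) ∉ S) (h2 : Fin.revPerm ∉ S) (h : IsSymm (Q S)) :
    Good m (F S) where
  sub := by
    rintro ⟨π, hπ⟩ i hi
    rw [mem_range]
    exact (mem_asc.mp hi).1
  card := by rw [Fintype.card_coe, hc]
  ne := by
    rintro ⟨π, hπ⟩
    by_contra hcon
    rw [not_nonempty_iff_eq_empty] at hcon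
    apply h2
    have : π = Fin.revPerm := by
      apply eq_rev_of_strictAnti
      rw [Fin.strictAnti_iff_succ_lt]
      intro i
      have : i ∈ des π := by
        rw [des_eq]
        intro hi
        have h' : (i : ℕ) ∈ F S ⟨π, hπ⟩ := hi
        rw [hcon] at h'
        simp at h'
      exact (mem_filter.mp this).2
    rw [← this]; exact hπ
  nf := by
    rintro ⟨π, hπ⟩ hcon
    apply h1
    have : π = 1 := by
      apply eq_one_of_strictMono
      rw [Fin.strictMono_iff_lt_succ]
      intro i
      have : i ∉ des π := by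
        rw [des_eq, not_not]
        show (i : ℕ) ∈ F S ⟨π, hπ⟩
        rw [hcon, mem_range]
        exact i.2
      have h3 : ¬ π i.succ < π i.castSucc := fun hh => this (mem_filter.mpr ⟨mem_univ _, hh⟩)
      rcases lt_or_eq_of_le (not_lt.mp h3) with h4 | h4
      · exact h4
      · have := π.injective h4
        exact absurd this (ne_of_lt (Fin.castSucc_lt_succ))
    rw [← this]; exact hπ
  sym := fun T T' hT hT' hN hN' hcd => fsym_of h T T' hT hT' (fib_NA hT hT' hN hN' hcd)
  adj := fun i j hi hj => fsym_of h _ _ (by intro x; simp; omega) (by intro x; simp; omega)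
    (fib_adj hi hj)

/-- evaluating a sum over the family from its members -/
lemma sum_fam {m : ℕ} {ι : Type*} [Fintype ι] {D : ι → Finset ℕ} (hcard : Fintype.card ι = m)
    {A : Fin m → Finset ℕ} (hA : Function.Injective A) (h : ∀ i, ∃ k, D k = A i)
    {M : Type*} [AddCommMonoid M] (f : Finset ℕ → M) : ∑ k, f (D k) = ∑ i, f (A i) := by
  classical
  choose e he using h
  have inj : Function.Injective e := by
    intro i j hij
    apply hA
    rw [← he i, ← he j, hij]
  have bij : Function.Bijective e := by
    rw [Fintype.bijective_iff_injective_and_card]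
    exact ⟨inj, by rw [Fintype.card_fin, hcard]⟩
  symm
  apply Fintype.sum_bijective e bij
  intro i
  rw [he i]

/-- the set of positions of `Fin m` outside `A` -/
def co (m : ℕ) (A : Finset ℕ) : Finset (Fin m) := univ.filter fun i => i.val ∉ A

lemma Q_eq {m : ℕ} (S : Finset (Equiv.Perm (Fin (m + 1)))) :
    Q S = ∑ k, fund (co m (F S k)) := by
  unfold Q
  rw [← Finset.sum_coe_sort]
  apply sum_congr rfl
  rintro ⟨π, hπ⟩ _
  congr 1
  ext i
  rw [co, mem_filter, des_eq]
  simp [F]

theorem main_cases {m : ℕ} (hm : 1 ≤ m) {S : Finset (Equiv.Perm (Fin (m + 1)))} (hc : S.card = m)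
    (h1 : (1 : Equiv.Perm (Fin (m+1))) ∉ S) (h2 : Fin.revPerm ∉ S) (h : IsSymm (Q S)) :
    Q S = ∑ i : Fin m, fund (univ.erase i) ∨ Q S = ∑ i : Fin m, fund {i} ∨
    (m = 5 ∧ Q S = ∑ A ∈ X, fund (co m A)) ∨
    (m = 5 ∧ Q S = ∑ A ∈ X, fund (co m (range 5 \ A))) := by
  have hG := good_of hc h1 h2 h
  rcases classify hm hG (fsym_of h) with h | h | ⟨rfl, h⟩ | ⟨rfl, h⟩
  · left
    rw [Q_eq, sum_fam hG.card (A := fun i : Fin m => {i.val}) _ _ (fun A => fund (co m A))]
    · apply sum_congr rfl
      intro i _
      congr 1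
      ext j
      simp [co, Fin.ext_iff]
    · intro i j hij
      simpa [Fin.ext_iff] using hij
    · intro i
      have := h i (mem_range.mpr i.2)
      obtain ⟨k, hk⟩ := card_pos.mp (lt_of_lt_of_eq Nat.zero_lt_one this.symm)
      exact ⟨k, (mem_filter.mp hk).2⟩
  · right; left
    rw [Q_eq, sum_fam hG.card (A := fun i : Fin m => range m \ {i.val}) _ _
      (fun A => fund (co m A))]
    · apply sum_congr rfl
      intro i _
      congr 1
      ext j
      simp [co, Fin.ext_iff]
    · intro i j hij
      have hi : i.val ∉ range m \ {i.val} := by simp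
      have hij' : range m \ {i.val} = range m \ {j.val} := hij
      rw [hij', mem_sdiff, not_and, not_not] at hi
      have := hi (mem_range.mpr i.2)
      rw [mem_singleton] at this
      exact Fin.ext this
    · intro i
      have := h i (mem_range.mpr i.2)
      obtain ⟨k, hk⟩ := card_pos.mp (lt_of_lt_of_eq Nat.zero_lt_one this.symm)
      exact ⟨k, (mem_filter.mp hk).2⟩
  · right; right; left
    refine ⟨rfl, ?_⟩
    rw [Q_eq, sum_fam hG.card (A := ![{0,2,4},{0,3},{1,3},{1,4},{2}]) _ _
      (fun A => fund (co 5 A))]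
    · rw [Fin.sum_univ_five]
      have : X = {{0,2,4},{0,3},{1,3},{1,4},{2}} := rfl
      rw [this, sum_insert (by decide), sum_insert (by decide), sum_insert (by decide),
        sum_insert (by decide), sum_singleton]
      simp only [Matrix.cons_val]
      abel
    · decide
    · intro i
      apply h
      fin_cases i <;> decide
  · right; right; right
    refine ⟨rfl, ?_⟩
    rw [Q_eq, sum_fam hG.card (A := ![range 5 \ {0,2,4},range 5 \ {0,3},range 5 \ {1,3},
      range 5 \ {1,4},range 5 \ {2}]) _ _ (fun A => fund (co 5 A))]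
    · rw [Fin.sum_univ_five]
      have : X = {{0,2,4},{0,3},{1,3},{1,4},{2}} := rfl
      rw [this, sum_insert (by decide), sum_insert (by decide), sum_insert (by decide),
        sum_insert (by decide), sum_singleton]
      simp only [Matrix.cons_val]
      abel
    · decide
    · intro i
      fin_cases i
      · exact h {0,2,4} (by decide)
      · exact h {0,3} (by decide)
      · exact h {1,3} (by decide)
      · exact h {1,4} (by decide)
      · exact h {2} (by decide)

end Pool.Agent.Q81.SP
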