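import Pool.Agent.Q81.SP.Schur

open Finset

namespace Pool.Agent.Q81.SP

/-- the diagram with rows `m, 1` (for `m ≥ 1`) -/
def hook (m : ℕ) : YoungDiagram where
  cells := insert (0, 0) (insert (1, 0) ((range m).image fun j => (0, j)))
  isLowerSet := by
    rintro ⟨a, b⟩ ⟨c, d⟩ h1 h2
    simp only [coe_insert, coe_image, coe_range, Set.mem_insert_iff, Set.mem_image, Set.mem_Iio,
      Prod.mk.injEq, Prod.mk_le_mk] at h1 h2 ⊢
    rcases h2 with h2 | h2 | ⟨x, hx, h2⟩
    · left; omega
    · rcases Nat.eq_zero_or_pos c with h3 | h3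
      · left; omega
      · right; left; omega
    · right; right; exact ⟨d, by omega, by omega, rfl⟩

lemma mem_hook {m : ℕ} (x : ℕ × ℕ) :
    x ∈ hook m ↔ x = (0, 0) ∨ x = (1, 0) ∨ (x.1 = 0 ∧ x.2 < m) := by
  rw [← YoungDiagram.mem_cells]
  show x ∈ insert (0, 0) (insert (1, 0) ((range m).image fun j => (0, j))) ↔ _
  rw [mem_insert, mem_insert, mem_image]
  constructor
  · rintro (h | h | ⟨j, hj, rfl⟩)
    · left; exact h
    · right; left; exact h
    · right; right; exact ⟨rfl, mem_range.mp hj⟩
  · rintro (h | h | ⟨h1, h2⟩)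
    · left; exact h
    · right; left; exact h
    · right; right; exact ⟨x.2, mem_range.mpr h2, by rw [← h1]⟩

/-- reading order -/
def rd (i k : ℕ) : ℕ × ℕ := if k ≤ i then (0, k) else if k = i + 1 then (1, 0) else (0, k - 1)

lemma rd_inj (i : ℕ) {a b : ℕ} (h : rd i a = rd i b) : a = b := by
  unfold rd at h
  split_ifs at h <;> simp only [Prod.mk.injEq] at h <;> omega

lemma rd_img {m i : ℕ} (hi : i < m) (x : ℕ × ℕ) : x ∈ hook m ↔ ∃ k < m + 1, rd i k = x := by
  rw [mem_hook]
  constructor
  · rintro (rfl | rfl | ⟨h1, h2⟩)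
    · exact ⟨0, by omega, by simp [rd]⟩
    · exact ⟨i+1, by omega, by simp [rd]⟩
    · rcases Nat.lt_or_ge i x.2 with h | h
      · refine ⟨x.2 + 1, by omega, ?_⟩
        unfold rd
        rw [if_neg (by omega), if_neg (by omega)]
        apply Prod.ext
        · exact h1.symm
        · simp
      · refine ⟨x.2, by omega, ?_⟩
        unfold rd
        rw [if_pos h]
        apply Prod.ext
        · exact h1.symm
        · rfl
  · rintro ⟨k, hk, rfl⟩
    unfold rd
    split_ifs with h1 h2
    · right; right; exact ⟨rfl, by show k < m; omega⟩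
    · right; left; rfl
    · right; right; exact ⟨rfl, by show k - 1 < m; omega⟩

lemma rd_row (i : ℕ) {a b : ℕ} (h : (rd i a).1 = (rd i b).1) (h' : (rd i a).2 < (rd i b).2) :
    a ≤ b := by
  unfold rd at h h'
  split_ifs at h h' <;> simp only at h h' <;> omega

lemma rd_col (i : ℕ) {a b : ℕ} (h : (rd i a).2 = (rd i b).2) (h' : (rd i a).1 < (rd i b).1) :
    a = 0 ∧ b = i + 1 := by
  unfold rd at h h'
  split_ifs at h h' <;> simp only at h h' <;> omega

theorem schur_hook {m : ℕ} (hm : 1 ≤ m) :
    schur (hook m) = ∑ i : Fin m, fund ({i} : Finset (Fin m)) := by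
  apply schur_expand (fun i : Fin m => ({i} : Finset (Fin m)))
    (fun (i : Fin m) (k : Fin (m+1)) => rd i k)
  · intro i a b h
    exact Fin.ext (rd_inj i h)
  · intro i x
    rw [rd_img i.2 x]
    constructor
    · rintro ⟨k, hk, h⟩; exact ⟨⟨k, hk⟩, h⟩
    · rintro ⟨k, h⟩; exact ⟨k, k.2, h⟩
  · intro i a b h h'
    exact rd_row i h h'
  · intro i a b h h'
    have := rd_col i h h'
    refine ⟨i, ?_, ?_, mem_singleton_self _⟩
    · rw [Fin.le_def]; simp; omega
    · rw [Fin.le_def]; simp; omega
  · intro T
    classical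
    have hex : ∃ p, p = m ∨ T 1 0 ≤ T 0 p := ⟨m, Or.inl rfl⟩
    set p := Nat.find hex with hp
    have hps := Nat.find_spec hex
    have hpm : p ≤ m := Nat.find_min' hex (Or.inl rfl)
    have hmin : ∀ j < p, T 0 j < T 1 0 := by
      intro j hj
      have := Nat.find_min hex hj
      push Not at this
      exact this.2
    have h0 : T 0 0 < T 1 0 := T.col_strict (by omega) ((mem_hook _).mpr (by simp))
    have hp1 : 1 ≤ p := by
      by_contra hc
      have : p = 0 := by omega
      rw [← hp, this] at hps
      rcases hps with h | h <;> omega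
    have rw' : ∀ a b, a ≤ b → b < m → T 0 a ≤ T 0 b := by
      intro a b hab hb
      rcases Nat.eq_or_lt_of_le hab with h | h
      · rw [h]
      · exact T.row_weak h ((mem_hook _).mpr (Or.inr (Or.inr ⟨rfl, hb⟩)))
    refine ⟨⟨p-1, by omega⟩, ?_, ?_⟩
    · intro k
      have hk := k.2
      simp only [Fin.val_castSucc, Fin.val_succ]
      unfold rd
      split_ifs with h1 h2 h3 h4 h5 h6 h7
      · exact rw' _ _ (by omega) (by omega)
      · exact (hmin _ (by omega)).le
      · omega
      · omega
      · omega
      · show T 1 0 ≤ T 0 (k + 1 - 1)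
        rw [← hp] at hps
        rcases hps with h | h
        · omega
        · exact h.trans (rw' _ _ (by omega) (by omega))
      · omega
      · omega
      · exact rw' _ _ (by omega) (by omega)
    · intro k hk
      rw [mem_singleton] at hk
      subst hk
      simp only [Fin.val_castSucc, Fin.val_succ]
      unfold rd
      rw [if_pos (le_refl _), if_neg (by omega), if_pos rfl]
      exact hmin _ (by omega)
  · intro T
    have key : ∀ i i' : Fin m, i < i' → Val T (fun k : Fin (m+1) => rd i k) {i} →
        Val T (fun k : Fin (m+1) => rd i' k) {i'} → False := by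
      intro i i' hii h h'
      rw [Fin.lt_def] at hii
      have h1 := h'.2 i' (mem_singleton_self _)
      simp only [Fin.val_castSucc, Fin.val_succ] at h1
      unfold rd at h1
      rw [if_pos (le_refl _), if_neg (by omega), if_pos rfl] at h1
      have h2 := h.1 ⟨i+1, by omega⟩
      simp only [Fin.castSucc_mk, Fin.succ_mk] at h2
      unfold rd at h2
      rw [if_neg (by omega), if_pos rfl, if_neg (by omega), if_neg (by omega)] at h2
      simp only [Nat.add_sub_cancel] at h1 h2
      have h3 : T 0 (i + 1) ≤ T 0 i' := by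
        rcases Nat.eq_or_lt_of_le (show (i : ℕ) + 1 ≤ i' by omega) with h | h
        · rw [h]
        · exact T.row_weak h ((mem_hook _).mpr (Or.inr (Or.inr ⟨rfl, i'.2⟩)))
      omega
    intro i i' h h'
    rcases lt_trichotomy i i' with h3 | h3 | h3
    · exact (key i i' h3 h h').elim
    · exact h3
    · exact (key i' i h3 h' h).elim

end Pool.Agent.Q81.SP
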