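import Pool.Agent.Q81.SP.Core

open Finset

namespace Pool.Agent.Q81.SP

lemma choose_ge : ∀ q r : ℕ, 1 ≤ r → r + 1 ≤ q → q ≤ q.choose r := by
  intro q
  induction q with
  | zero => intro r h1 h2; omega
  | succ q ih =>
    intro r h1 h2
    obtain ⟨r, rfl⟩ : ∃ s, r = s + 1 := ⟨r - 1, by omega⟩
    rw [Nat.choose_succ_succ']
    rcases Nat.eq_zero_or_pos r with h | h
    · subst h; simp
    · have a1 := ih r h (by omega)
      rcases Nat.lt_or_ge (r + 1) q with h' | h'
      · have a2 := ih (r+1) (by omega) (by omega)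
        omega
      · have : r + 1 = q := by omega
        subst this
        simp

lemma choose_gt (q r : ℕ) (h1 : 2 ≤ r) (h2 : r + 2 ≤ q) : q < q.choose r := by
  obtain ⟨q, rfl⟩ : ∃ s, q = s + 1 := ⟨q - 1, by omega⟩
  obtain ⟨r, rfl⟩ : ∃ s, r = s + 1 := ⟨r - 1, by omega⟩
  rw [Nat.choose_succ_succ']
  have a1 := choose_ge q r (by omega) (by omega)
  have a2 := choose_ge q (r+1) (by omega) (by omega)
  omega

lemma choose_ge2 : ∀ q r : ℕ, 5 ≤ q → 2 ≤ r → r + 2 ≤ q → 2 * q ≤ q.choose r := by
  intro q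
  induction q with
  | zero => intro r h; omega
  | succ q ih =>
    intro r h5 h1 h2
    rcases Nat.lt_or_ge 5 (q+1) with h | h
    · obtain ⟨r, rfl⟩ : ∃ s, r = s + 1 := ⟨r - 1, by omega⟩
      rw [Nat.choose_succ_succ']
      rcases Nat.lt_or_ge r 2 with h' | h'
      · have : r = 1 := by omega
        subst this
        have a1 := ih 2 (by omega) (by omega) (by omega)
        simp at a1 ⊢; omega
      · have a1 := ih r (by omega) (by omega) (by omega)
        have a2 := choose_ge q (r+1) (by omega) (by omega)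
        omega
    · have : q = 4 := by omega
      subst this
      have : r = 2 ∨ r = 3 := by omega
      rcases this with rfl | rfl <;> decide

variable {ι : Type*} [Fintype ι]

/-- the value `r` is attained as size of a trace on some nonadjacent set of size `q` -/
def Att (m : ℕ) (D : ι → Finset ℕ) (q r : ℕ) : Prop :=
  ∃ T k, T ⊆ range m ∧ NA T ∧ T.card = q ∧ (D k ∩ T).card = r

lemma att_cpl {m q r : ℕ} {D : ι → Finset ℕ} (h : Att m D q r) : Att m (cpl m D) q (q - r) := by
  obtain ⟨T, k, h1, h2, h3, h4⟩ := h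
  refine ⟨T, k, h1, h2, h3, ?_⟩
  have : cpl m D k ∩ T = T \ (D k ∩ T) := by
    ext x
    simp only [cpl, mem_inter, mem_sdiff]
    constructor
    · rintro ⟨⟨a, b⟩, c⟩; exact ⟨c, fun h => b h.1⟩
    · rintro ⟨a, b⟩; exact ⟨⟨h1 a, fun h => b ⟨h, a⟩⟩, a⟩
  rw [this, card_sdiff_of_subset inter_subset_right, h3, h4]

lemma att_ge {m q r : ℕ} {D : ι → Finset ℕ} (hD : Good m D) (h : Att m D q r)
    {T : Finset ℕ} (hT : T ⊆ range m) (hN : NA T) (hq : T.card = q) :
    q.choose r ≤ (univ.filter fun k => (D k ∩ T).card = r).card := by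
  classical
  obtain ⟨T0, k0, h1, h2, h3, h4⟩ := h
  rw [← hq, ← Finset.card_powersetCard]
  apply Finset.card_le_card_of_surjOn (fun k => D k ∩ T)
  intro R hR
  rw [Finset.mem_coe, mem_powersetCard] at hR
  have key : g D (T \ R) R = g D (T0 \ (D k0 ∩ T0)) (D k0 ∩ T0) := by
    apply gsym hD (q - r)
    · rw [card_sdiff_of_subset hR.1, hq, hR.2]
    · rw [card_sdiff_of_subset inter_subset_right, h3, h4]
    · rw [hR.2, h4]
    · exact disjoint_sdiff.symm
    · exact disjoint_sdiff.symm
    · rw [sdiff_union_of_subset hR.1]; exact hT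
    · rw [sdiff_union_of_subset inter_subset_right]; exact h1
    · rw [sdiff_union_of_subset hR.1]; exact hN
    · rw [sdiff_union_of_subset inter_subset_right]; exact h2
  have pos : 0 < g D (T0 \ (D k0 ∩ T0)) (D k0 ∩ T0) := by
    unfold g
    apply card_pos.mpr
    refine ⟨k0, ?_⟩
    simp only [mem_filter, mem_univ, true_and]
    refine ⟨?_, inter_subset_left⟩
    rw [Finset.disjoint_left]
    intro x hx hx'
    rw [mem_sdiff] at hx
    exact hx.2 (mem_inter.mpr ⟨hx', hx.1⟩)
  rw [← key] at pos
  unfold g at pos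
  obtain ⟨k, hk⟩ := card_pos.mp pos
  simp only [mem_filter, mem_univ, true_and] at hk
  have e : D k ∩ T = R := by
    ext x
    rw [mem_inter]
    constructor
    · rintro ⟨a, b⟩
      by_contra hc
      exact Finset.disjoint_left.mp hk.1 (mem_sdiff.mpr ⟨b, hc⟩) a
    · intro hx; exact ⟨hk.2 hx, hR.1 hx⟩
  refine ⟨k, ?_, e⟩
  simp only [coe_filter, mem_univ, true_and, Set.mem_ofPred_eq]
  rw [e, hR.2]

lemma card2_le {D : ι → Finset ℕ} (T : Finset ℕ) {a b : ℕ} (hab : a ≠ b) :
    (univ.filter fun k => (D k ∩ T).card = a).card + (univ.filter fun k => (D k ∩ T).card = b).card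
      ≤ Fintype.card ι := by
  classical
  rw [← card_union_of_disjoint]
  · exact card_le_univ _
  · rw [Finset.disjoint_left]
    intro x
    simp only [mem_filter, mem_univ, true_and]
    omega

lemma card3_le {D : ι → Finset ℕ} (T : Finset ℕ) {a b c : ℕ} (hab : a ≠ b) (hac : a ≠ c)
    (hbc : b ≠ c) :
    (univ.filter fun k => (D k ∩ T).card = a).card + (univ.filter fun k => (D k ∩ T).card = b).card
      + (univ.filter fun k => (D k ∩ T).card = c).card ≤ Fintype.card ι := by
  classical
  rw [← card_union_of_disjoint, ← card_union_of_disjoint]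
  · exact card_le_univ _
  · rw [Finset.disjoint_left]
    intro x
    simp only [mem_filter, mem_univ, true_and, mem_union]
    omega
  · rw [Finset.disjoint_left]
    intro x
    simp only [mem_filter, mem_univ, true_and]
    omega

/-- double counting -/
lemma dc (D : ι → Finset ℕ) (T : Finset ℕ) :
    ∑ k, (D k ∩ T).card = ∑ i ∈ T, g D ∅ {i} := by
  classical
  unfold g
  simp_rw [card_eq_sum_ones, sum_filter]
  rw [sum_comm]
  apply sum_congr rfl
  intro k _
  rw [← sum_filter, ← card_eq_sum_ones, ← card_eq_sum_ones]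
  congr 1
  ext x
  simp [and_comm]

lemma final {m : ℕ} {D : ι → Finset ℕ} (hD : Good m D) (hm : 1 ≤ m) (h1 : g D ∅ {0} = 1) :
    ∀ i ∈ range m, (univ.filter fun k => D k = {i}).card = 1 := by
  classical
  have s1 : ∑ k, (D k).card = m := by
    have := dc D (range m)
    have e : ∀ k, D k ∩ range m = D k := fun k => inter_eq_left.mpr (hD.sub k)
    simp_rw [e] at this
    rw [this]
    have : ∀ i ∈ range m, g D ∅ {i} = 1 := by
      intro i hi
      rw [← h1]; exact g_one hD (mem_range.mp hi) (by omega)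
    rw [sum_congr rfl this]; simp
  have s2 : ∀ k ∈ (univ : Finset ι), (D k).card = 1 := by
    have hle : ∀ k ∈ (univ : Finset ι), 1 ≤ (D k).card := fun k _ => card_pos.mpr (hD.ne k)
    have : ∑ k : ι, 1 = ∑ k, (D k).card := by
      rw [s1]; simp [hD.card]
    intro k hk
    exact ((Finset.sum_eq_sum_iff_of_le hle).mp this k hk).symm
  intro i hi
  have : g D ∅ {i} = 1 := by rw [← h1]; exact g_one hD (mem_range.mp hi) (by omega)
  rw [← this]
  unfold g
  congr 1
  ext k
  simp only [mem_filter, mem_univ, true_and, singleton_subset_iff]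
  constructor
  · intro h; rw [h]; simp
  · rintro ⟨_, h⟩
    obtain ⟨x, hx⟩ := card_eq_one.mp (s2 k (mem_univ k))
    rw [hx] at h ⊢
    rw [mem_singleton] at h
    rw [h]

lemma d_pos {m : ℕ} {D : ι → Finset ℕ} (hD : Good m D) (hm : 1 ≤ m) : 1 ≤ g D ∅ {0} := by
  classical
  have hι : 0 < Fintype.card ι := by rw [hD.card]; omega
  obtain ⟨k⟩ := Fintype.card_pos_iff.mp hι
  obtain ⟨x, hx⟩ := hD.ne k
  rw [g_one hD (i := 0) (j := x) (by omega) (mem_range.mp (hD.sub k hx))]
  unfold g
  exact card_pos.mpr ⟨k, by simp [hx]⟩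

/-- from a nonadjacent pair in some member to any nonadjacent pair -/
lemma pair_move {m : ℕ} {D : ι → Finset ℕ} (hD : Good m D) {k : ι} {i j : ℕ} (hi : i ∈ D k)
    (hj : j ∈ D k) (hij : i + 1 < j) {a b : ℕ} (hab : a + 1 < b) (hb : b < m) :
    ∃ k', a ∈ D k' ∧ b ∈ D k' := by
  classical
  have h1 := mem_range.mp (hD.sub k hi)
  have h2 := mem_range.mp (hD.sub k hj)
  have e : g D ∅ {a, b} = g D ∅ {i, j} := hD.sym _ _
    (by intro x; simp; omega) (by intro x; simp; omega)
    (by intro x; simp; omega) (by intro x; simp; omega)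
    (by rw [card_pair (by omega), card_pair (by omega)])
  have pos : 0 < g D ∅ {i, j} := by
    unfold g
    exact card_pos.mpr ⟨k, by simp [insert_subset_iff, hi, hj]⟩
  rw [← e] at pos
  unfold g at pos
  obtain ⟨k', hk'⟩ := card_pos.mp pos
  simp [insert_subset_iff] at hk'
  exact ⟨k', hk'⟩

lemma two_le {D : Finset ℕ} {T : Finset ℕ} {a b : ℕ} (h1 : a ∈ D) (h2 : b ∈ D) (h3 : a ∈ T)
    (h4 : b ∈ T) (hne : a ≠ b) : 2 ≤ (D ∩ T).card :=
  one_lt_card.mpr ⟨a, mem_inter.mpr ⟨h1, h3⟩, b, mem_inter.mpr ⟨h2, h4⟩, hne⟩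

/-- `d = 1` when traces on a nonadjacent set have size at most one -/
lemma d_one {m q : ℕ} {D : ι → Finset ℕ} (hD : Good m D) (hm : 1 ≤ m) {T : Finset ℕ}
    (hT : T ⊆ range m) (hq : T.card = q) (hNA : NA T)
    (hno : ∀ k i j, i ∈ D k → j ∈ D k → i + 1 < j → False)
    (hlt : ∑ k, (D k ∩ T).card < 2 * q) : g D ∅ {0} = 1 := by
  have := dc D T
  have e : ∀ i ∈ T, g D ∅ {i} = g D ∅ {0} := by
    intro i hi
    exact g_one hD (mem_range.mp (hT hi)) (by omega)
  rw [sum_congr rfl e, sum_const, hq, smul_eq_mul] at this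
  rw [this] at hlt
  have hp := d_pos hD hm
  by_contra hne
  have : 2 ≤ g D ∅ {0} := by omega
  nlinarith

lemma le_one_of_no {m : ℕ} {D : ι → Finset ℕ} {T : Finset ℕ} (hNA : NA T)
    (hno : ∀ k i j, i ∈ D k → j ∈ D k → i + 1 < j → False) (k : ι) :
    (D k ∩ T).card ≤ 1 := by
  rw [card_le_one]
  intro a ha b hb
  rw [mem_inter] at ha hb
  by_contra hne
  rcases Nat.lt_or_ge a b with h | h
  · have : a + 1 ≠ b := fun h' => hNA a ha.2 (h' ▸ hb.2)
    exact hno k a b ha.1 hb.1 (by omega)
  · have : b + 1 ≠ a := fun h' => hNA b hb.2 (h' ▸ ha.2)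
    exact hno k b a hb.1 ha.1 (by omega)

/-- the sets `{0,2,..,2a-2} ∪ {2a+1,...,2q-1}` -/
def O (q a : ℕ) : Finset ℕ := (range q).image fun j => if j < a then 2 * j else 2 * j + 1

lemma mem_O {q a x : ℕ} : x ∈ O q a ↔ ∃ j < q, (if j < a then 2 * j else 2 * j + 1) = x := by
  simp [O]

lemma O_card (q a : ℕ) : (O q a).card = q := by
  unfold O
  rw [card_image_of_injective, card_range]
  intro i j h
  simp only at h
  split_ifs at h <;> omega

lemma O_NA (q a : ℕ) : NA (O q a) := by
  intro x hx hx'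
  rw [mem_O] at hx hx'
  obtain ⟨i, hi, h1⟩ := hx
  obtain ⟨j, hj, h2⟩ := hx'
  split_ifs at h1 h2 <;> omega

lemma O_sub (q a : ℕ) : O q a ⊆ range (2 * q) := by
  intro x hx
  rw [mem_O] at hx
  obtain ⟨i, hi, h1⟩ := hx
  rw [mem_range]
  split_ifs at h1 <;> omega

lemma even_main {q : ℕ} (hq : 3 ≤ q) {D : ι → Finset ℕ} (hD : Good (2 * q) D)
    (h0 : Att (2 * q) D q 0) (h1 : Att (2 * q) D q 1) :
    ∀ i ∈ range (2 * q), (univ.filter fun k => D k = {i}).card = 1 := by
  classical
  have full : ∀ T : Finset ℕ, T ⊆ range (2 * q) → NA T → T.card = q → ∀ k, 2 ≤ (D k ∩ T).card →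
      T ⊆ D k := by
    intro T hT hN hc k hk
    have hle : (D k ∩ T).card ≤ q := by rw [← hc]; exact card_le_card inter_subset_right
    rcases Nat.eq_or_lt_of_le hle with h | h
    · rw [← hc] at h
      have := Finset.eq_of_subset_of_card_le (inter_subset_right : D k ∩ T ⊆ T) (le_of_eq h.symm)
      rw [← this]; exact inter_subset_left
    · exfalso
      set s := (D k ∩ T).card with hs
      have a0 := att_ge hD h0 hT hN hc
      have a1 := att_ge hD h1 hT hN hc
      have a2 := att_ge hD ⟨T, k, hT, hN, hc, hs.symm⟩ hT hN hc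
      have a3 := choose_ge q s (by omega) (by omega)
      have a4 := card3_le (D := D) T (a := 0) (b := 1) (c := s) (by omega) (by omega) (by omega)
      rw [hD.card] at a4
      simp only [Nat.choose_zero_right, Nat.choose_one_right] at a0 a1
      omega
  have hno : ∀ k i j, i ∈ D k → j ∈ D k → i + 1 < j → False := by
    intro k i j hi hj hij
    obtain ⟨k', ha, hb⟩ := pair_move hD hi hj hij (a := 3) (b := 5) (by omega) (by omega)
    have f0 := full (O q 0) (O_sub q 0) (O_NA q 0) (O_card q 0) k'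
      (two_le ha hb (mem_O.mpr ⟨1, by omega, by simp⟩) (mem_O.mpr ⟨2, by omega, by simp⟩) (by omega))
    have f1 := full (O q 1) (O_sub q 1) (O_NA q 1) (O_card q 1) k'
      (two_le ha hb (mem_O.mpr ⟨1, by omega, by simp⟩) (mem_O.mpr ⟨2, by omega, by simp⟩) (by omega))
    have m0 : 0 ∈ D k' := f1 (mem_O.mpr ⟨0, by omega, by simp⟩)
    have m5 : 5 ∈ D k' := hb
    have f2 := full (O q 2) (O_sub q 2) (O_NA q 2) (O_card q 2) k'
      (two_le m0 m5 (mem_O.mpr ⟨0, by omega, by simp⟩) (mem_O.mpr ⟨2, by omega, by simp⟩) (by omega))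
    have m2 : 2 ∈ D k' := f2 (mem_O.mpr ⟨1, by omega, by simp⟩)
    have fq := full (O q q) (O_sub q q) (O_NA q q) (O_card q q) k'
      (two_le m0 m2 (mem_O.mpr ⟨0, by omega, by simp; omega⟩) (mem_O.mpr ⟨1, by omega, by simp; omega⟩)
        (by omega))
    apply hD.nf k'
    apply Subset.antisymm (hD.sub k')
    intro y hy
    rw [mem_range] at hy
    rcases Nat.even_or_odd' y with ⟨j, hj | hj⟩
    · exact fq (mem_O.mpr ⟨j, by omega, by rw [if_pos (by omega)]; omega⟩)
    · exact f0 (mem_O.mpr ⟨j, by omega, by rw [if_neg (by omega)]; omega⟩)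
  apply final hD (by omega)
  apply d_one hD (by omega) (O_sub q 0) (O_card q 0) (O_NA q 0) hno
  have a0 := att_ge hD h0 (O_sub q 0) (O_NA q 0) (O_card q 0)
  simp only [Nat.choose_zero_right] at a0
  obtain ⟨k0, hk0⟩ := card_pos.mp (lt_of_lt_of_le Nat.zero_lt_one a0)
  simp only [mem_filter, mem_univ, true_and] at hk0
  calc ∑ k, (D k ∩ O q 0).card < ∑ k : ι, 1 := by
        apply sum_lt_sum (fun k _ => le_one_of_no (m := 2 * q) (O_NA q 0) hno k)
        exact ⟨k0, mem_univ _, by omega⟩
    _ = 2 * q := by simp [hD.card]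

lemma odd_main {q : ℕ} (hq : 4 ≤ q) {D : ι → Finset ℕ} (hD : Good (2 * q - 1) D)
    (h1 : Att (2 * q - 1) D q 1) :
    ∀ i ∈ range (2 * q - 1), (univ.filter fun k => D k = {i}).card = 1 := by
  classical
  have full : ∀ T : Finset ℕ, T ⊆ range (2 * q - 1) → NA T → T.card = q → ∀ k,
      2 ≤ (D k ∩ T).card → T ⊆ D k := by
    intro T hT hN hc k hk
    have hle : (D k ∩ T).card ≤ q := by rw [← hc]; exact card_le_card inter_subset_right
    rcases Nat.eq_or_lt_of_le hle with h | h
    · rw [← hc] at h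
      have := Finset.eq_of_subset_of_card_le (inter_subset_right : D k ∩ T ⊆ T) (le_of_eq h.symm)
      rw [← this]; exact inter_subset_left
    · exfalso
      set s := (D k ∩ T).card with hs
      have a1 := att_ge hD h1 hT hN hc
      have a2 := att_ge hD ⟨T, k, hT, hN, hc, hs.symm⟩ hT hN hc
      have a3 := choose_ge q s (by omega) (by omega)
      have a4 := card2_le (D := D) T (a := 1) (b := s) (by omega)
      rw [hD.card] at a4
      simp only [Nat.choose_one_right] at a1
      omega
  -- even positions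
  have OE : O q q = (range q).image fun j => 2 * j := by
    ext x; simp only [mem_O, mem_image, mem_range]
    constructor
    · rintro ⟨j, hj, h⟩; rw [if_pos hj] at h; exact ⟨j, hj, h⟩
    · rintro ⟨j, hj, h⟩; exact ⟨j, hj, by rw [if_pos hj]; exact h⟩
  have Osub : O q q ⊆ range (2 * q - 1) := by
    rw [OE]; intro x hx; simp at hx ⊢; omega
  have sizes : ∀ k, (D k ∩ O q q).card ≤ 1 ∨ O q q ⊆ D k := by
    intro k
    rcases Nat.lt_or_ge (D k ∩ O q q).card 2 with h | h
    · left; omega
    · right; exact full _ Osub (O_NA q q) (O_card q q) k h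
  set E := (range (q-1)).image fun j => 2 * j with hE
  have Esub : E ⊆ O q q := by
    rw [OE, hE]; intro x hx; simp only [mem_image, mem_range] at hx ⊢
    obtain ⟨j, hj, h⟩ := hx; exact ⟨j, by omega, h⟩
  have Ecard : E.card = q - 1 := by
    rw [hE, card_image_of_injective _ (fun a b h => by simpa using h), card_range]
  have small : ∀ T : Finset ℕ, T ⊆ range (2 * q - 1) → NA T → T.card = q - 1 → ∀ k,
      2 ≤ (D k ∩ T).card → T ⊆ D k := by
    intro T hT hN hc k hk
    set s := (D k ∩ T).card with hs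
    have hle : s ≤ q - 1 := by rw [← hc]; exact card_le_card inter_subset_right
    have a := att_ge hD (⟨T, k, hT, hN, hc, hs.symm⟩ : Att (2*q-1) D (q-1) s)
      (Esub.trans Osub) ((O_NA q q).mono Esub) Ecard
    have cp : 0 < (q-1).choose s := Nat.choose_pos hle
    obtain ⟨k', hk'⟩ := card_pos.mp (lt_of_lt_of_le cp a)
    simp only [mem_filter, mem_univ, true_and] at hk'
    have hs' : s = q - 1 := by
      rcases sizes k' with h | h
      · exfalso
        have : (D k' ∩ E).card ≤ (D k' ∩ O q q).card :=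
          card_le_card (inter_subset_inter_left Esub)
        omega
      · have : D k' ∩ E = E := inter_eq_right.mpr (Esub.trans h)
        rw [this, Ecard] at hk'
        omega
    have := Finset.eq_of_subset_of_card_le (inter_subset_right : D k ∩ T ⊆ T)
      (by rw [hc, ← hs]; omega)
    rw [← this]; exact inter_subset_left
  have hno : ∀ k i j, i ∈ D k → j ∈ D k → i + 1 < j → False := by
    intro k i j hi hj hij
    obtain ⟨k', ha, hb⟩ := pair_move hD hi hj hij (a := 0) (b := 2) (by omega) (by omega)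
    have f0 := full (O q q) Osub (O_NA q q) (O_card q q) k'
      (two_le ha hb (mem_O.mpr ⟨0, by omega, by simp; omega⟩) (mem_O.mpr ⟨1, by omega, by simp; omega⟩)
        (by omega))
    have ev : ∀ j < q, 2 * j ∈ D k' := fun j hj => f0 (mem_O.mpr ⟨j, hj, by rw [if_pos hj]⟩)
    apply hD.nf k'
    apply Subset.antisymm (hD.sub k')
    intro y hy
    rw [mem_range] at hy
    rcases Nat.even_or_odd' y with ⟨j, hj | hj⟩
    · rw [hj]; exact ev j (by omega)
    · set F := (((range q).erase j).erase (j+1)).image (fun i => 2 * i) with hF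
      have hFc : F.card = q - 2 := by
        rw [hF, card_image_of_injective _ (fun a b h => by simpa using h),
          card_erase_of_mem (by simp; omega), card_erase_of_mem (by simp; omega), card_range]
        omega
      have hyF : y ∉ F := by
        rw [hF]; simp only [mem_image, mem_erase, mem_range, not_exists, not_and]
        intro x _ _; omega
      have hT : insert y F ⊆ D k' := by
        apply small
        · intro x hx
          rw [mem_insert] at hx
          rw [mem_range]
          rcases hx with rfl | hx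
          · omega
          · rw [hF] at hx; simp only [mem_image, mem_erase, mem_range] at hx
            omega
        · intro x hx hx'
          rw [mem_insert] at hx hx'
          rw [hF] at hx hx'
          simp only [mem_image, mem_erase, mem_range] at hx hx'
          rcases hx with hx | ⟨a, ⟨ha1, ha2, ha3⟩, ha⟩ <;>
            rcases hx' with hx' | ⟨b, ⟨hb1, hb2, hb3⟩, hb⟩ <;> omega
        · rw [card_insert_of_notMem hyF, hFc]; omega
        · have : F ⊆ D k' ∩ insert y F := by
            intro x hx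
            refine mem_inter.mpr ⟨?_, mem_insert_of_mem hx⟩
            rw [hF] at hx; simp only [mem_image, mem_erase, mem_range] at hx
            obtain ⟨z, hz, rfl⟩ := hx
            exact ev z hz.2.2
          have := card_le_card this
          omega
      exact hT (mem_insert_self _ _)
  apply final hD (by omega)
  apply d_one hD (by omega) Osub (O_card q q) (O_NA q q) hno
  calc ∑ k, (D k ∩ O q q).card ≤ ∑ k : ι, 1 :=
        sum_le_sum (fun k _ => le_one_of_no (m := 2 * q) (O_NA q q) hno k)
    _ < 2 * q := by simp [hD.card]; omega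

end Pool.Agent.Q81.SP
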