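import Pool.Agent.Q81.SP.Fund

open Finset

namespace Pool.Agent.Q81.SP

/-- compatibility of a tableau with a reading order of the cells and a descent set -/
def Val {m : ℕ} {Λ : YoungDiagram} (T : SemistandardYoungTableau Λ) (c : Fin (m+1) → ℕ × ℕ)
    (D : Finset (Fin m)) : Prop :=
  (∀ i : Fin m, T (c i.castSucc).1 (c i.castSucc).2 ≤ T (c i.succ).1 (c i.succ).2) ∧
  (∀ i ∈ D, T (c i.castSucc).1 (c i.castSucc).2 < T (c i.succ).1 (c i.succ).2)

theorem schur_expand {m : ℕ} {Λ : YoungDiagram} {ι : Type*} [Fintype ι] (D : ι → Finset (Fin m))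
    (c : ι → Fin (m+1) → ℕ × ℕ) (inj : ∀ t, Function.Injective (c t))
    (img : ∀ t x, x ∈ Λ ↔ ∃ k, c t k = x)
    (row : ∀ t k1 k2, (c t k1).1 = (c t k2).1 → (c t k1).2 < (c t k2).2 → k1 ≤ k2)
    (col : ∀ t k1 k2, (c t k1).2 = (c t k2).2 → (c t k1).1 < (c t k2).1 →
      ∃ l : Fin m, k1 ≤ l.castSucc ∧ l.succ ≤ k2 ∧ l ∈ D t)
    (ex : ∀ T : SemistandardYoungTableau Λ, ∃ t, Val T (c t) (D t))
    (un : ∀ (T : SemistandardYoungTableau Λ) t t', Val T (c t) (D t) → Val T (c t') (D t') →
      t = t') :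
    schur Λ = ∑ t, fund (D t) := by
  classical
  funext μ
  have e1 : (∑ t, fund (D t)) μ = ∑ t, fund (D t) μ := by
    have := map_sum (MvPowerSeries.coeff (R := ℤ) μ) (fun t => fund (D t)) univ
    exact this
  rw [e1]
  unfold schur fund
  rw [← Nat.cast_sum]
  congr 1
  have fin : ∀ t, Finite {w : Fin (m+1) → ℕ // Word (D t) μ w} := by
    intro t
    apply @Finite.of_subsingleton _ ⟨fun a b => Subtype.ext ?_⟩
    exact word_unique (Fin.monotone_iff_le_succ.mpr a.2.1) (Fin.monotone_iff_le_succ.mpr b.2.1)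
      (a.2.2.2.trans b.2.2.2.symm)
  rw [← Nat.card_sigma]
  rw [← Nat.card_congr (Equiv.subtypeProdEquivSigmaSubtype
    (fun (t : ι) (w : Fin (m+1) → ℕ) => Word (D t) μ w))]
  have cexpo : ∀ (T : SemistandardYoungTableau Λ) t,
      cont T = expo (fun k => T (c t k).1 (c t k).2) := by
    intro T t
    unfold cont expo
    have : Λ.cells = univ.image (c t) := by
      ext x
      rw [YoungDiagram.mem_cells, img t x]
      simp
    rw [this, sum_image (fun a _ b _ h => inj t h)]
  choose tt htt using ex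
  let Φ : {T : SemistandardYoungTableau Λ // cont T = μ} →
      {p : ι × (Fin (m+1) → ℕ) // Word (D p.1) μ p.2} := fun T =>
    ⟨(tt T.1, fun k => T.1 (c (tt T.1) k).1 (c (tt T.1) k).2),
      (htt T.1).1, (htt T.1).2, by rw [← cexpo]; exact T.2⟩
  apply Nat.card_congr
  apply Equiv.ofBijective Φ
  constructor
  · rintro ⟨T, hT⟩ ⟨T', hT'⟩ h
    rw [Subtype.ext_iff, Prod.ext_iff] at h
    obtain ⟨h1, h2⟩ := h
    simp only [Φ] at h1 h2
    apply Subtype.ext
    apply SemistandardYoungTableau.ext
    intro i j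
    by_cases hij : (i, j) ∈ Λ
    · obtain ⟨k, hk⟩ := (img (tt T) (i, j)).mp hij
      have := congrFun h2 k
      rw [← h1, hk] at this
      exact this
    · rw [T.zeros hij, T'.zeros hij]
  · rintro ⟨⟨t, w⟩, hw⟩
    have hmono : Monotone w := Fin.monotone_iff_le_succ.mpr hw.1
    let inv : ∀ x, x ∈ Λ → Fin (m+1) := fun x hx => ((img t x).mp hx).choose
    have hinv : ∀ x hx, c t (inv x hx) = x := fun x hx => ((img t x).mp hx).choose_spec
    have hinv2 : ∀ k (hk : c t k ∈ Λ), inv (c t k) hk = k := fun k hk => inj t (hinv _ hk)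
    let T : SemistandardYoungTableau Λ :=
      { entry := fun i j => if h : (i, j) ∈ Λ then w (inv (i, j) h) else 0
        row_weak' := by
          intro i j1 j2 hj hmem
          have hmem1 : (i, j1) ∈ Λ := Λ.up_left_mem (le_refl i) hj.le hmem
          simp only [dif_pos hmem, dif_pos hmem1]
          apply hmono
          apply row t
          · rw [hinv _ hmem1, hinv _ hmem]
          · rw [hinv _ hmem1, hinv _ hmem]; exact hj
        col_strict' := by
          intro i1 i2 j hi hmem
          have hmem1 : (i1, j) ∈ Λ := Λ.up_left_mem hi.le (le_refl j) hmem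
          simp only [dif_pos hmem, dif_pos hmem1]
          obtain ⟨l, h1, h2, h3⟩ := col t (inv (i1, j) hmem1) (inv (i2, j) hmem)
            (by rw [hinv _ hmem1, hinv _ hmem]) (by rw [hinv _ hmem1, hinv _ hmem]; exact hi)
          calc w (inv (i1, j) hmem1) ≤ w l.castSucc := hmono h1
            _ < w l.succ := hw.2.1 l h3
            _ ≤ _ := hmono h2
        zeros' := by
          intro i j hij
          simp only [dif_neg hij] }
    have hTc : ∀ k, T (c t k).1 (c t k).2 = w k := by
      intro k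
      have hk : c t k ∈ Λ := (img t _).mpr ⟨k, rfl⟩
      show (if h : ((c t k).1, (c t k).2) ∈ Λ then w (inv ((c t k).1, (c t k).2) h) else 0) = w k
      rw [dif_pos hk]
      exact congrArg w (hinv2 k hk)
    have hval : Val T (c t) (D t) := by
      constructor
      · intro i; rw [hTc, hTc]; exact hw.1 i
      · intro i hi; rw [hTc, hTc]; exact hw.2.1 i hi
    have ht : tt T = t := un T _ _ (htt T) hval
    have hcont : cont T = μ := by
      rw [cexpo T t, ← hw.2.2]
      congr 1
      funext k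
      exact hTc k
    refine ⟨⟨T, hcont⟩, ?_⟩
    apply Subtype.ext
    apply Prod.ext
    · exact ht
    · funext k
      show T (c (tt T) k).1 (c (tt T) k).2 = w k
      rw [ht]; exact hTc k

end Pool.Agent.Q81.SP
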