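import Pool.Agent.Q81.SP.GoodOf
import Pool.Agent.Q81.SP.Schur

open Finset

namespace Pool.Agent.Q81.SP

set_option maxRecDepth 100000

/-- the diagram with rows `3, 3` -/
def rect : YoungDiagram where
  cells := range 2 ×ˢ range 3
  isLowerSet := by
    rintro ⟨a, b⟩ ⟨c, d⟩ h1 h2
    simp only [Finset.mem_coe, mem_product, mem_range, Prod.mk_le_mk] at h1 h2 ⊢
    omega

lemma mem_rect (x : ℕ × ℕ) : x ∈ rect ↔ x.1 < 2 ∧ x.2 < 3 := by
  rw [← YoungDiagram.mem_cells]
  show x ∈ range 2 ×ˢ range 3 ↔ _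
  rw [mem_product, mem_range, mem_range]

def c3 : Fin 5 → Fin 6 → ℕ × ℕ :=
  ![![(0,0),(0,1),(0,2),(1,0),(1,1),(1,2)],
    ![(0,0),(0,1),(1,0),(0,2),(1,1),(1,2)],
    ![(0,0),(0,1),(1,0),(1,1),(0,2),(1,2)],
    ![(0,0),(1,0),(0,1),(0,2),(1,1),(1,2)],
    ![(0,0),(1,0),(0,1),(1,1),(0,2),(1,2)]]

def D3 : Fin 5 → Finset (Fin 5) := ![{2}, {1,3}, {1,4}, {0,3}, {0,2,4}]

def D3' : Fin 5 → Finset (Fin 5) := ![{0,1,3,4}, {0,2,4}, {0,2,3}, {1,2,4}, {1,3}]

lemma c3_inj : ∀ t, Function.Injective (c3 t) := by decide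
lemma c3_img1 : ∀ t, ∀ x ∈ range 2 ×ˢ range 3, ∃ k, c3 t k = x := by decide
lemma c3_img2 : ∀ t k, c3 t k ∈ range 2 ×ˢ range 3 := by decide
lemma c3_row : ∀ t k1 k2, (c3 t k1).1 = (c3 t k2).1 → (c3 t k1).2 < (c3 t k2).2 → k1 ≤ k2 := by
  decide
lemma c3_col : ∀ t k1 k2, (c3 t k1).2 = (c3 t k2).2 → (c3 t k1).1 < (c3 t k2).1 →
    ∃ l : Fin 5, k1 ≤ l.castSucc ∧ l.succ ≤ k2 ∧ l ∈ D3 t := by
  decide
lemma c3_row' : ∀ t k1 k2, (c3 t k1).2 = (c3 t k2).2 → (c3 t k1).1 < (c3 t k2).1 → k1 ≤ k2 := by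
  decide
lemma c3_col' : ∀ t k1 k2, (c3 t k1).1 = (c3 t k2).1 → (c3 t k1).2 < (c3 t k2).2 →
    ∃ l : Fin 5, k1 ≤ l.castSucc ∧ l.succ ≤ k2 ∧ l ∈ D3' t := by
  decide

lemma c3_img (t : Fin 5) (x : ℕ × ℕ) : x ∈ rect ↔ ∃ k, c3 t k = x := by
  constructor
  · intro h; exact c3_img1 t x h
  · rintro ⟨k, rfl⟩; exact c3_img2 t k

theorem schur_rect : schur rect = ∑ t, fund (D3 t) := by
  apply schur_expand (m := 5) D3 c3 c3_inj c3_img c3_row c3_col
  · intro T
    have a12 : T 0 0 ≤ T 0 1 := T.row_weak (by omega) ((mem_rect _).mpr (by simp))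
    have a23 : T 0 1 ≤ T 0 2 := T.row_weak (by omega) ((mem_rect _).mpr (by simp))
    have b12 : T 1 0 ≤ T 1 1 := T.row_weak (by omega) ((mem_rect _).mpr (by simp))
    have b23 : T 1 1 ≤ T 1 2 := T.row_weak (by omega) ((mem_rect _).mpr (by simp))
    have c1 : T 0 0 < T 1 0 := T.col_strict (by omega) ((mem_rect _).mpr (by simp))
    have c2 : T 0 1 < T 1 1 := T.col_strict (by omega) ((mem_rect _).mpr (by simp))
    have c3' : T 0 2 < T 1 2 := T.col_strict (by omega) ((mem_rect _).mpr (by simp))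
    by_cases h1 : T 0 2 < T 1 0
    · refine ⟨0, ?_, ?_⟩
      · intro i; fin_cases i <;> simp [c3] <;> omega
      · intro i hi; fin_cases i <;> simp [c3, D3] at hi ⊢ <;> omega
    · by_cases h2 : T 0 1 < T 1 0
      · by_cases h3 : T 0 2 < T 1 1
        · refine ⟨1, ?_, ?_⟩
          · intro i; fin_cases i <;> simp [c3] <;> omega
          · intro i hi; fin_cases i <;> simp [c3, D3] at hi ⊢ <;> omega
        · refine ⟨2, ?_, ?_⟩
          · intro i; fin_cases i <;> simp [c3] <;> omega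
          · intro i hi; fin_cases i <;> simp [c3, D3] at hi ⊢ <;> omega
      · by_cases h3 : T 0 2 < T 1 1
        · refine ⟨3, ?_, ?_⟩
          · intro i; fin_cases i <;> simp [c3] <;> omega
          · intro i hi; fin_cases i <;> simp [c3, D3] at hi ⊢ <;> omega
        · refine ⟨4, ?_, ?_⟩
          · intro i; fin_cases i <;> simp [c3] <;> omega
          · intro i hi; fin_cases i <;> simp [c3, D3] at hi ⊢ <;> omega
  · intro T t t' h h'
    have a12 : T 0 0 ≤ T 0 1 := T.row_weak (by omega) ((mem_rect _).mpr (by simp))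
    have a23 : T 0 1 ≤ T 0 2 := T.row_weak (by omega) ((mem_rect _).mpr (by simp))
    have b12 : T 1 0 ≤ T 1 1 := T.row_weak (by omega) ((mem_rect _).mpr (by simp))
    have b23 : T 1 1 ≤ T 1 2 := T.row_weak (by omega) ((mem_rect _).mpr (by simp))
    fin_cases t <;> fin_cases t' <;>
      first | rfl | (exfalso; simp [Val, c3, D3, Fin.forall_fin_succ] at h h'; omega)

lemma mem_rectT (x : ℕ × ℕ) : x ∈ rect.transpose ↔ x.2 < 2 ∧ x.1 < 3 := by
  rw [YoungDiagram.mem_transpose, mem_rect]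
  rfl

theorem schur_rectT : schur rect.transpose = ∑ t, fund (D3' t) := by
  apply schur_expand (m := 5) D3' (fun t k => (c3 t k).swap)
  · intro t a b h
    exact c3_inj t (Prod.swap_injective h)
  · intro t x
    rw [YoungDiagram.mem_transpose, c3_img t x.swap]
    constructor
    · rintro ⟨k, h⟩; exact ⟨k, by rw [← Prod.swap_swap x, ← h]⟩
    · rintro ⟨k, h⟩; exact ⟨k, by rw [← h, Prod.swap_swap]⟩
  · intro t a b h h'
    exact c3_row' t a b h h'
  · intro t a b h h'
    exact c3_col' t a b h h'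
  · intro T
    have a12 : T 0 0 < T 1 0 := T.col_strict (by omega) ((mem_rectT _).mpr (by simp))
    have a23 : T 1 0 < T 2 0 := T.col_strict (by omega) ((mem_rectT _).mpr (by simp))
    have b12 : T 0 1 < T 1 1 := T.col_strict (by omega) ((mem_rectT _).mpr (by simp))
    have b23 : T 1 1 < T 2 1 := T.col_strict (by omega) ((mem_rectT _).mpr (by simp))
    have c1 : T 0 0 ≤ T 0 1 := T.row_weak (by omega) ((mem_rectT _).mpr (by simp))
    have c2 : T 1 0 ≤ T 1 1 := T.row_weak (by omega) ((mem_rectT _).mpr (by simp))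
    have c3' : T 2 0 ≤ T 2 1 := T.row_weak (by omega) ((mem_rectT _).mpr (by simp))
    by_cases h1 : T 2 0 ≤ T 0 1
    · refine ⟨0, ?_, ?_⟩
      · intro i; fin_cases i <;> simp [c3] <;> omega
      · intro i hi; fin_cases i <;> simp [c3, D3'] at hi ⊢ <;> omega
    · by_cases h2 : T 1 0 ≤ T 0 1
      · by_cases h3 : T 2 0 ≤ T 1 1
        · refine ⟨1, ?_, ?_⟩
          · intro i; fin_cases i <;> simp [c3] <;> omega
          · intro i hi; fin_cases i <;> simp [c3, D3'] at hi ⊢ <;> omega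
        · refine ⟨2, ?_, ?_⟩
          · intro i; fin_cases i <;> simp [c3] <;> omega
          · intro i hi; fin_cases i <;> simp [c3, D3'] at hi ⊢ <;> omega
      · by_cases h3 : T 2 0 ≤ T 1 1
        · refine ⟨3, ?_, ?_⟩
          · intro i; fin_cases i <;> simp [c3] <;> omega
          · intro i hi; fin_cases i <;> simp [c3, D3'] at hi ⊢ <;> omega
        · refine ⟨4, ?_, ?_⟩
          · intro i; fin_cases i <;> simp [c3] <;> omega
          · intro i hi; fin_cases i <;> simp [c3, D3'] at hi ⊢ <;> omega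
  · intro T t t' h h'
    have a12 : T 0 0 < T 1 0 := T.col_strict (by omega) ((mem_rectT _).mpr (by simp))
    have a23 : T 1 0 < T 2 0 := T.col_strict (by omega) ((mem_rectT _).mpr (by simp))
    have b12 : T 0 1 < T 1 1 := T.col_strict (by omega) ((mem_rectT _).mpr (by simp))
    have b23 : T 1 1 < T 2 1 := T.col_strict (by omega) ((mem_rectT _).mpr (by simp))
    fin_cases t <;> fin_cases t' <;>
      first | rfl | (exfalso; simp [Val, c3, D3', Fin.forall_fin_succ] at h h'; omega)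

end Pool.Agent.Q81.SP
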