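import Pool.Agent.Q81.SP.Cases

open Finset

namespace Pool.Agent.Q81.SP

instance (T : Finset ℕ) : Decidable (NA T) := by unfold NA; infer_instance

/-- multiset of block sizes of the word constant on the positions of `T` -/
def fib (m : ℕ) (T : Finset ℕ) : Multiset ℕ :=
  (range (m+1)).val.map fun v =>
    ((range (m+1)).filter fun k => ((range k).filter (· ∉ T)).card = v).card

variable {ι : Type*} [Fintype ι]

def FSym (m : ℕ) (D : ι → Finset ℕ) : Prop :=
  ∀ T T', T ⊆ range m → T' ⊆ range m → fib m T = fib m T' → g D ∅ T = g D ∅ T'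

lemma dcj (D : ι → Finset ℕ) (T : Finset ℕ) (j : ℕ) :
    ∑ k, ((D k ∩ T).card).choose j = ∑ R ∈ powersetCard j T, g D ∅ R := by
  classical
  unfold g
  have : ∀ k, ((D k ∩ T).card).choose j = ∑ R ∈ powersetCard j T, if R ⊆ D k then 1 else 0 := by
    intro k
    rw [← card_powersetCard, ← sum_filter, ← card_eq_sum_ones]
    congr 1
    ext R
    simp only [mem_powersetCard, mem_filter, subset_inter_iff]
    tauto
  simp_rw [this]
  rw [sum_comm]
  apply sum_congr rfl
  intro R _
  rw [← sum_filter, ← card_eq_sum_ones]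
  congr 1
  ext k
  simp

lemma sizes (D : ι → Finset ℕ) (T : Finset ℕ) (b : ℕ) (hb : T.card ≤ b) (f : ℕ → ℕ) :
    ∑ k, f (D k ∩ T).card =
      ∑ s ∈ range (b+1), (univ.filter fun k => (D k ∩ T).card = s).card * f s := by
  classical
  rw [← Finset.sum_fiberwise_of_maps_to (s := univ) (t := range (b+1))
    (g := fun k => (D k ∩ T).card)]
  · apply sum_congr rfl
    intro s _
    rw [sum_congr rfl (g := fun _ => f s), sum_const, smul_eq_mul]
    intro k hk
    rw [(mem_filter.mp hk).2]
  · intro k _
    rw [mem_range]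
    have := card_le_card (inter_subset_right : D k ∩ T ⊆ T)
    omega

lemma sum_pairs {m : ℕ} {D : ι → Finset ℕ} (hD : Good m D) (hm : 4 ≤ m) :
    ∑ R ∈ powersetCard 2 (range m), g D ∅ R =
      ((powersetCard 2 (range m)).filter (fun R => NA R)).card * g D ∅ {0, 2} +
      ((powersetCard 2 (range m)).filter (fun R => ¬ NA R)).card * g D ∅ {0, 1} := by
  rw [← sum_filter_add_sum_filter_not _ (fun R => NA R)]
  congr 1
  · rw [sum_congr rfl (g := fun _ => g D ∅ {0, 2}), sum_const, smul_eq_mul]
    intro R hR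
    rw [mem_filter, mem_powersetCard] at hR
    exact hD.sym _ _ hR.1.1 (by intro x; simp; omega) hR.2 (by decide) (by rw [hR.1.2]; rfl)
  · rw [sum_congr rfl (g := fun _ => g D ∅ {0, 1}), sum_const, smul_eq_mul]
    intro R hR
    rw [mem_filter, mem_powersetCard] at hR
    obtain ⟨⟨h1, h2⟩, h3⟩ := hR
    unfold NA at h3
    push Not at h3
    obtain ⟨i, hi, hi'⟩ := h3
    have : R = {i, i+1} := by
      symm
      apply Finset.eq_of_subset_of_card_le
      · intro x hx; simp at hx; rcases hx with rfl | rfl <;> assumption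
      · rw [h2, card_pair (by omega)]
    rw [this]
    exact hD.adj i 0 (mem_range.mp (h1 hi')) (by omega)

lemma sum_triples {m : ℕ} {D : ι → Finset ℕ} (hD : Good m D) (hF : FSym m D) (hm : 5 ≤ m)
    (hfib : ∀ R ∈ powersetCard 3 (range m), ¬ NA R → fib m R = fib m {0,1,2} ∨
      fib m R = fib m {0,1,3}) :
    ∑ R ∈ powersetCard 3 (range m), g D ∅ R =
      ((powersetCard 3 (range m)).filter (fun R => NA R)).card * g D ∅ {0, 2, 4} +
      (((powersetCard 3 (range m)).filter (fun R => ¬ NA R ∧ fib m R = fib m {0,1,2})).card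
        * g D ∅ {0, 1, 2} +
      ((powersetCard 3 (range m)).filter (fun R => ¬ NA R ∧ ¬ fib m R = fib m {0,1,2})).card
        * g D ∅ {0, 1, 3}) := by
  rw [← sum_filter_add_sum_filter_not _ (fun R => NA R)]
  congr 1
  · rw [sum_congr rfl (g := fun _ => g D ∅ {0, 2, 4}), sum_const, smul_eq_mul]
    intro R hR
    rw [mem_filter, mem_powersetCard] at hR
    exact hD.sym _ _ hR.1.1 (by intro x; simp; omega) hR.2 (by decide) (by rw [hR.1.2]; rfl)
  · rw [← sum_filter_add_sum_filter_not _ (fun R => fib m R = fib m {0,1,2}), filter_filter,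
      filter_filter]
    congr 1
    · rw [sum_congr rfl (g := fun _ => g D ∅ {0, 1, 2}), sum_const, smul_eq_mul]
      intro R hR
      rw [mem_filter, mem_powersetCard] at hR
      exact hF _ _ hR.1.1 (by intro x; simp; omega) hR.2.2
    · rw [sum_congr rfl (g := fun _ => g D ∅ {0, 1, 3}), sum_const, smul_eq_mul]
      intro R hR
      rw [mem_filter] at hR
      have h1 := (mem_powersetCard.mp hR.1)
      rcases hfib R hR.1 hR.2.1 with h | h
      · exact absurd h hR.2.2
      · exact hF _ _ h1.1 (by intro x; simp; omega) h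

lemma g_lt_adj {m : ℕ} {D : ι → Finset ℕ} (hD : Good m D) (hm : 2 ≤ m) :
    g D ∅ {0, 1} < g D ∅ {0} := by
  classical
  have hle : ∀ i, g D ∅ {0,1} ≤ g D ∅ {i} ∨ ¬ (i = 0 ∨ i = 1) := by
    intro i
    by_cases hi : i = 0 ∨ i = 1
    · left
      unfold g
      apply card_le_card
      intro k
      simp only [mem_filter, mem_univ, true_and, insert_subset_iff, singleton_subset_iff]
      rcases hi with rfl | rfl <;> tauto
    · right; exact hi
  obtain ⟨k, hk⟩ := exists_ne hD hm (i := 0) (by omega)
  have h01 := g_one hD (i := 0) (j := 1) (by omega) (by omega)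
  by_contra hcon
  have e0 : g D ∅ {0} = g D ∅ {0, 1} := by
    rcases hle 0 with h | h
    · omega
    · simp at h
  apply hk
  constructor
  · intro h
    exact all_of_eq (R := {0}) (R' := {0,1}) (by simp) e0 k (by simpa using h) (by simp)
  · intro h
    exact all_of_eq (R := {1}) (R' := {0,1}) (by simp) (by rw [← h01, e0]) k (by simpa using h)
      (by simp)

end Pool.Agent.Q81.SP
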