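import Pool.Agent.Q81.SP.Small

open Finset

namespace Pool.Agent.Q81.SP

set_option maxRecDepth 100000
set_option linter.unusedSimpArgs false

lemma ch_0_2 : Nat.choose 0 2 = 0 := rfl
lemma ch_1_2 : Nat.choose 1 2 = 0 := rfl
lemma ch_2_2 : Nat.choose 2 2 = 1 := rfl
lemma ch_3_2 : Nat.choose 3 2 = 3 := rfl
lemma ch_4_2 : Nat.choose 4 2 = 6 := rfl
lemma ch_5_2 : Nat.choose 5 2 = 10 := rfl
lemma ch_6_2 : Nat.choose 6 2 = 15 := rfl
lemma ch_7_2 : Nat.choose 7 2 = 21 := rfl
lemma ch_0_3 : Nat.choose 0 3 = 0 := rfl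
lemma ch_1_3 : Nat.choose 1 3 = 0 := rfl
lemma ch_2_3 : Nat.choose 2 3 = 0 := rfl
lemma ch_3_3 : Nat.choose 3 3 = 1 := rfl
lemma ch_4_3 : Nat.choose 4 3 = 4 := rfl
lemma ch_5_3 : Nat.choose 5 3 = 10 := rfl
lemma ch_6_3 : Nat.choose 6 3 = 20 := rfl
lemma ch_7_3 : Nat.choose 7 3 = 35 := rfl

lemma pc2_6a : ((powersetCard 2 (range 6)).filter (fun R => NA R)).card = 10 := by decide
lemma pc2_6b : ((powersetCard 2 (range 6)).filter (fun R => ¬ NA R)).card = 5 := by decide
lemma pc3_6 : ∀ R ∈ powersetCard 3 (range 6), ¬ NA R → fib 6 R = fib 6 {0,1,2} ∨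
    fib 6 R = fib 6 {0,1,3} := by decide
lemma pc3_6z : ((powersetCard 3 (range 6)).filter (fun R => NA R)).card = 4 := by decide
lemma pc3_6a : ((powersetCard 3 (range 6)).filter
    (fun R => ¬ NA R ∧ fib 6 R = fib 6 {0,1,2})).card = 4 := by decide
lemma pc3_6b : ((powersetCard 3 (range 6)).filter
    (fun R => ¬ NA R ∧ ¬ fib 6 R = fib 6 {0,1,2})).card = 12 := by decide
lemma size6 : ∀ A ∈ (range 6).powerset, (∀ T ∈ powersetCard 3 (range 6), NA T →
    1 ≤ (A ∩ T).card ∧ (A ∩ T).card ≤ 2) → 2 ≤ A.card ∧ A.card ≤ 4 := by decide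

lemma pc2_7a : ((powersetCard 2 (range 7)).filter (fun R => NA R)).card = 15 := by decide
lemma pc2_7b : ((powersetCard 2 (range 7)).filter (fun R => ¬ NA R)).card = 6 := by decide
lemma pc3_7 : ∀ R ∈ powersetCard 3 (range 7), ¬ NA R → fib 7 R = fib 7 {0,1,2} ∨
    fib 7 R = fib 7 {0,1,3} := by decide
lemma pc3_7z : ((powersetCard 3 (range 7)).filter (fun R => NA R)).card = 10 := by decide
lemma pc3_7a : ((powersetCard 3 (range 7)).filter
    (fun R => ¬ NA R ∧ fib 7 R = fib 7 {0,1,2})).card = 5 := by decide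
lemma pc3_7b : ((powersetCard 3 (range 7)).filter
    (fun R => ¬ NA R ∧ ¬ fib 7 R = fib 7 {0,1,2})).card = 20 := by decide
lemma size7 : ∀ A ∈ (range 7).powerset, (∀ T ∈ powersetCard 3 (range 7), NA T →
    ¬ T ⊆ A) → A.card ≤ 4 := by decide

variable {ι : Type*} [Fintype ι]

lemma not6 {D : ι → Finset ℕ} (hD : Good 6 D) (hF : FSym 6 D) (a1 : Att 6 D 3 1)
    (a2 : Att 6 D 3 2) : False := by
  classical
  have cnt : ∀ T : Finset ℕ, T ⊆ range 6 → NA T → T.card = 3 →
      (univ.filter fun k => (D k ∩ T).card = 0).card = 0 ∧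
      (univ.filter fun k => (D k ∩ T).card = 1).card = 3 ∧
      (univ.filter fun k => (D k ∩ T).card = 2).card = 3 ∧
      (univ.filter fun k => (D k ∩ T).card = 3).card = 0 := by
    intro T h1 h2 h3
    have b1 := att_ge hD a1 h1 h2 h3
    have b2 := att_ge hD a2 h1 h2 h3
    have s := sizes D T 3 (by omega) (fun _ => 1)
    simp only [sum_const, card_univ, hD.card, smul_eq_mul, mul_one, sum_range_succ, range_zero,
      sum_empty, zero_add] at s
    have e1 : Nat.choose 3 1 = 3 := rfl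
    have e2 : Nat.choose 3 2 = 3 := rfl
    rw [e1] at b1; rw [e2] at b2
    omega
  have hT0 : ({0,2,4} : Finset ℕ) ⊆ range 6 := by decide
  have hN0 : NA ({0,2,4} : Finset ℕ) := by decide
  have hc0 : ({0,2,4} : Finset ℕ).card = 3 := by decide
  obtain ⟨z0, z1, z2, z3⟩ := cnt _ hT0 hN0 hc0
  have d3 : g D ∅ {0} = 3 := by
    have s := sizes D {0,2,4} 3 (by decide) (fun s => s)
    rw [dc D {0,2,4}] at s
    rw [sum_congr rfl (g := fun _ => g D ∅ {0})] at s
    · simp only [sum_const, hc0, smul_eq_mul, sum_range_succ, range_zero, sum_empty] at s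
      norm_num at s
      omega
    · intro i hi
      exact g_one hD (mem_range.mp (hT0 hi)) (by omega)
  have e1 : g D ∅ {0, 2} = 1 := by
    have s := sizes D {0,2,4} 3 (by decide) (fun s => s.choose 2)
    rw [dcj D {0,2,4} 2] at s
    rw [sum_congr rfl (g := fun _ => g D ∅ {0, 2})] at s
    · simp only [sum_const, card_powersetCard, hc0, smul_eq_mul, sum_range_succ, range_zero,
        sum_empty, ch_0_2, ch_1_2, ch_2_2, ch_3_2, ch_4_2, ch_5_2, ch_6_2, ch_7_2, ch_0_3, ch_1_3, ch_2_3, ch_3_3, ch_4_3, ch_5_3, ch_6_3, ch_7_3] at s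
      omega
    · intro R hR
      rw [mem_powersetCard] at hR
      exact hD.sym _ _ (hR.1.trans hT0) (by decide) (hN0.mono hR.1) (by decide)
        (by rw [hR.2]; rfl)
  have h3 : g D ∅ {0, 2, 4} = 0 := by
    have s := sizes D {0,2,4} 3 (by decide) (fun s => s.choose 3)
    rw [dcj D {0,2,4} 3] at s
    have : powersetCard 3 ({0,2,4} : Finset ℕ) = {{0,2,4}} := by decide
    rw [this, sum_singleton] at s
    simp only [sum_range_succ, range_zero, sum_empty, ch_0_2, ch_1_2, ch_2_2, ch_3_2, ch_4_2, ch_5_2, ch_6_2, ch_7_2, ch_0_3, ch_1_3, ch_2_3, ch_3_3, ch_4_3, ch_5_3, ch_6_3, ch_7_3] at s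
    omega
  have hadj := g_lt_adj hD (by omega)
  have hr : ∀ k, D k ∩ range 6 = D k := fun k => inter_eq_left.mpr (hD.sub k)
  have hsz : ∀ k, 2 ≤ (D k).card ∧ (D k).card ≤ 4 := by
    intro k
    apply size6 (D k) (mem_powerset.mpr (hD.sub k))
    intro T hT hN
    rw [mem_powersetCard] at hT
    obtain ⟨w0, _, _, w3⟩ := cnt T hT.1 hN hT.2
    rw [card_eq_zero, filter_eq_empty_iff] at w0 w3
    have u0 := w0 (mem_univ k)
    have u3 := w3 (mem_univ k)
    have : (D k ∩ T).card ≤ 3 := by rw [← hT.2]; exact card_le_card inter_subset_right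
    omega
  have zz : ∀ s, (s < 2 ∨ 4 < s) → (univ.filter fun k => (D k ∩ range 6).card = s).card = 0 := by
    intro s hs
    rw [card_eq_zero, filter_eq_empty_iff]
    intro k _ hk
    rw [hr k] at hk
    have := hsz k
    omega
  have y0 := zz 0 (by omega)
  have y1 := zz 1 (by omega)
  have y5 := zz 5 (by omega)
  have y6 := zz 6 (by omega)
  have t0 := sizes D (range 6) 6 (by simp) (fun _ => 1)
  have t1 := sizes D (range 6) 6 (by simp) (fun s => s)
  have t2 := sizes D (range 6) 6 (by simp) (fun s => s.choose 2)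
  have t3 := sizes D (range 6) 6 (by simp) (fun s => s.choose 3)
  rw [dc D (range 6), sum_congr rfl (g := fun _ => g D ∅ {0})
    (fun i hi => g_one hD (mem_range.mp hi) (by omega))] at t1
  rw [dcj, sum_pairs hD (by omega), pc2_6a, pc2_6b] at t2
  rw [dcj, sum_triples hD hF (by omega) pc3_6, pc3_6z, pc3_6a, pc3_6b] at t3
  simp only [sum_const, card_univ, hD.card, smul_eq_mul, mul_one, sum_range_succ, range_zero,
    sum_empty, zero_add, card_range, ch_0_2, ch_1_2, ch_2_2, ch_3_2, ch_4_2, ch_5_2, ch_6_2, ch_7_2, ch_0_3, ch_1_3, ch_2_3, ch_3_3, ch_4_3, ch_5_3, ch_6_3, ch_7_3] at t0 t1 t2 t3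
  omega

lemma arith7t (n0 n2 n4 d e h3 : ℕ) (h : n0 + n2 + n4 = 7) (h2 : 6 ≤ n2)
    (s1 : 4 * d = n2 * 2 + n4 * 4) (s2 : 6 * e = n2 + n4 * 6) (s3 : 4 * h3 = n4 * 4) :
    (n4 = 0 ∧ n0 = 1 ∧ d = 3 ∧ e = 1 ∧ h3 = 0) ∨ (n4 = 1 ∧ n0 = 0 ∧ d = 4 ∧ e = 2 ∧ h3 = 1) := by
  have : n4 ≤ 1 := by omega
  interval_cases n4 <;> omega

lemma arith7a (N1 N2 N3 N4 e' A B : ℕ) (h0 : N1 + N2 + N3 + N4 = 7)
    (h1 : N1 + N2 * 2 + N3 * 3 + N4 * 4 = 21) (h2 : N2 + N3 * 3 + N4 * 6 = 15 + 6 * e')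
    (h3 : N3 + N4 * 4 = 5 * A + 20 * B) (he : e' < 3) : False := by
  interval_cases e' <;> omega

lemma arith7b (N3 N4 N5 N6 e' A B : ℕ) (h0 : N3 + N4 + N5 + N6 = 7)
    (h1 : N3 * 3 + N4 * 4 + N5 * 5 + N6 * 6 = 28)
    (h2 : N3 * 3 + N4 * 6 + N5 * 10 + N6 * 15 = 30 + 6 * e')
    (h3 : N3 + N4 * 4 + N5 * 10 + N6 * 20 = 10 + (5 * A + 20 * B)) (he : e' < 4) : False := by
  have : N6 ≤ 7 := by omega
  interval_cases e' <;> interval_cases N6 <;> omega

lemma T4 {D : ι → Finset ℕ} (hD : Good 7 D) (a2 : Att 7 D 4 2) :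
    ((univ.filter fun k => (D k ∩ {0,2,4,6}).card = 0).card = 1 ∧ g D ∅ {0} = 3 ∧
      g D ∅ {0,2} = 1 ∧ g D ∅ {0,2,4} = 0) ∨
    ((univ.filter fun k => (D k ∩ {0,2,4,6}).card = 0).card = 0 ∧
      (univ.filter fun k => (D k ∩ {0,2,4,6}).card = 1).card = 0 ∧ g D ∅ {0} = 4 ∧
      g D ∅ {0,2} = 2 ∧ g D ∅ {0,2,4} = 1) := by
  classical
  have hT0 : ({0,2,4,6} : Finset ℕ) ⊆ range 7 := by decide
  have hN0 : NA ({0,2,4,6} : Finset ℕ) := by decide
  have hc0 : ({0,2,4,6} : Finset ℕ).card = 4 := by decide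
  have n2 := att_ge hD a2 hT0 hN0 hc0
  have ch42 : Nat.choose 4 2 = 6 := rfl
  rw [ch42] at n2
  have s0 := sizes D {0,2,4,6} 4 (by decide) (fun _ => 1)
  have s1 := sizes D {0,2,4,6} 4 (by decide) (fun s => s)
  have s2 := sizes D {0,2,4,6} 4 (by decide) (fun s => s.choose 2)
  have s3 := sizes D {0,2,4,6} 4 (by decide) (fun s => s.choose 3)
  rw [dc D, sum_congr rfl (g := fun _ => g D ∅ {0})
    (fun i hi => g_one hD (mem_range.mp (hT0 hi)) (by omega))] at s1
  rw [dcj D {0,2,4,6} 2, sum_congr rfl (g := fun _ => g D ∅ {0, 2}) (fun R hR => by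
    rw [mem_powersetCard] at hR
    exact hD.sym _ _ (hR.1.trans hT0) (by decide) (hN0.mono hR.1) (by decide)
        (by rw [hR.2]; rfl))] at s2
  rw [dcj D {0,2,4,6} 3, sum_congr rfl (g := fun _ => g D ∅ {0, 2, 4}) (fun R hR => by
    rw [mem_powersetCard] at hR
    exact hD.sym _ _ (hR.1.trans hT0) (by decide) (hN0.mono hR.1) (by decide)
        (by rw [hR.2]; rfl))] at s3
  simp only [sum_const, card_univ, hD.card, card_powersetCard, hc0, smul_eq_mul, mul_one,
    sum_range_succ, range_zero, sum_empty, zero_add, ch_0_2, ch_1_2, ch_2_2, ch_3_2, ch_4_2, ch_5_2, ch_6_2, ch_7_2, ch_0_3, ch_1_3, ch_2_3, ch_3_3, ch_4_3, ch_5_3, ch_6_3, ch_7_3] at s0 s1 s2 s3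
  have m1 : (univ.filter fun k => (D k ∩ {0,2,4,6}).card = 1).card = 0 := by
    by_contra hne
    obtain ⟨k, hk⟩ := card_pos.mp (Nat.pos_of_ne_zero hne)
    have := att_ge hD (⟨_, k, hT0, hN0, hc0, (mem_filter.mp hk).2⟩ : Att 7 D 4 1) hT0 hN0 hc0
    rw [Nat.choose_one_right] at this
    clear s1 s2 s3
    omega
  have m3 : (univ.filter fun k => (D k ∩ {0,2,4,6}).card = 3).card = 0 := by
    by_contra hne
    obtain ⟨k, hk⟩ := card_pos.mp (Nat.pos_of_ne_zero hne)
    have := att_ge hD (⟨_, k, hT0, hN0, hc0, (mem_filter.mp hk).2⟩ : Att 7 D 4 3) hT0 hN0 hc0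
    rw [ch_4_3] at this
    clear s1 s2 s3
    omega
  rw [m1, m3] at s0 s1 s2 s3
  simp only [zero_mul, mul_zero, zero_add, add_zero, one_mul] at s0 s1 s2 s3
  rcases arith7t _ _ _ _ _ _ s0.symm n2 s1 s2 s3 with ⟨_, h2, h3, h4, h5⟩ | ⟨_, h2, h3, h4, h5⟩
  · left; exact ⟨h2, h3, h4, h5⟩
  · right; exact ⟨h2, m1, h3, h4, h5⟩

lemma R7 {D : ι → Finset ℕ} (hD : Good 7 D) (hF : FSym 7 D) :
    (∑ s ∈ range 8, (univ.filter fun k => (D k).card = s).card = 7) ∧
    (∑ s ∈ range 8, (univ.filter fun k => (D k).card = s).card * s = 7 * g D ∅ {0}) ∧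
    (∑ s ∈ range 8, (univ.filter fun k => (D k).card = s).card * s.choose 2 =
      15 * g D ∅ {0, 2} + 6 * g D ∅ {0, 1}) ∧
    (∑ s ∈ range 8, (univ.filter fun k => (D k).card = s).card * s.choose 3 =
      10 * g D ∅ {0, 2, 4} + (5 * g D ∅ {0, 1, 2} + 20 * g D ∅ {0, 1, 3})) := by
  have hr : ∀ k, D k ∩ range 7 = D k := fun k => inter_eq_left.mpr (hD.sub k)
  have t0 := sizes D (range 7) 7 (by simp) (fun _ => 1)
  have t1 := sizes D (range 7) 7 (by simp) (fun s => s)
  have t2 := sizes D (range 7) 7 (by simp) (fun s => s.choose 2)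
  have t3 := sizes D (range 7) 7 (by simp) (fun s => s.choose 3)
  rw [dc D (range 7), sum_congr rfl (g := fun _ => g D ∅ {0})
    (fun i hi => g_one hD (mem_range.mp hi) (by omega))] at t1
  rw [dcj, sum_pairs hD (by omega), pc2_7a, pc2_7b] at t2
  rw [dcj, sum_triples hD hF (by omega) pc3_7, pc3_7z, pc3_7a, pc3_7b] at t3
  simp only [hr] at t0 t1 t2 t3
  refine ⟨?_, ?_, t2.symm, t3.symm⟩
  · simpa [hD.card] using t0.symm
  · rw [← t1]; simp

lemma zero_of {D : ι → Finset ℕ} (s : ℕ) (h : ∀ k, (D k).card ≠ s) :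
    (univ.filter fun k => (D k).card = s).card = 0 := by
  rw [card_eq_zero, filter_eq_empty_iff]
  intro k _ hk
  exact h k hk

lemma not7 {D : ι → Finset ℕ} (hD : Good 7 D) (hF : FSym 7 D) (a2 : Att 7 D 4 2) : False := by
  classical
  have hadj := g_lt_adj hD (by omega)
  obtain ⟨t0, t1, t2, t3⟩ := R7 hD hF
  simp only [sum_range_succ, range_zero, sum_empty, zero_add, ch_0_2, ch_1_2, ch_2_2, ch_3_2, ch_4_2, ch_5_2, ch_6_2, ch_7_2, ch_0_3, ch_1_3, ch_2_3, ch_3_3, ch_4_3, ch_5_3, ch_6_3, ch_7_3,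
    mul_zero, mul_one] at t0 t1 t2 t3
  rcases T4 hD a2 with ⟨_, h1, h2, h3⟩ | ⟨h0, m1, h1, h2, h3⟩
  · have hsz : ∀ k, 1 ≤ (D k).card ∧ (D k).card ≤ 4 := by
      intro k
      refine ⟨card_pos.mpr (hD.ne k), ?_⟩
      apply size7 (D k) (mem_powerset.mpr (hD.sub k))
      intro T hT hN hTD
      rw [mem_powersetCard] at hT
      have : g D ∅ T = 0 := by
        rw [← h3]
        exact hD.sym _ _ hT.1 (by decide) hN (by decide) (by rw [hT.2]; rfl)
      unfold g at this
      rw [card_eq_zero, filter_eq_empty_iff] at this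
      exact this (mem_univ k) ⟨disjoint_empty_left _, hTD⟩
    have y0 := zero_of (D := D) 0 (fun k h => by have := hsz k; clear t0 t1 t2 t3; omega)
    have y5 := zero_of (D := D) 5 (fun k h => by have := hsz k; clear t0 t1 t2 t3; omega)
    have y6 := zero_of (D := D) 6 (fun k h => by have := hsz k; clear t0 t1 t2 t3; omega)
    have y7 := zero_of (D := D) 7 (fun k h => by have := hsz k; clear t0 t1 t2 t3; omega)
    simp only [y0, y5, y6, y7] at t0 t1 t2 t3
    rw [h1] at t1 hadj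
    rw [h2] at t2
    rw [h3] at t3
    simp only [zero_mul, mul_zero, zero_add, add_zero, mul_one] at t0 t1 t2 t3
    exact arith7a _ _ _ _ _ _ _ t0 t1 t2 t3 hadj
  · have hR0 : g D {0,2,4} ∅ = 0 := by
      unfold g
      rw [card_eq_zero, filter_eq_empty_iff]
      intro k _ hk
      rw [card_eq_zero, filter_eq_empty_iff] at h0 m1
      have u0 := h0 (mem_univ k)
      have u1 := m1 (mem_univ k)
      have : D k ∩ {0,2,4,6} ⊆ {6} := by
        intro x hx
        rw [mem_inter] at hx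
        have h := Finset.disjoint_right.mp hk.1 hx.1
        simp only [mem_insert, mem_singleton] at h hx ⊢
        tauto
      have := card_le_card this
      rw [card_singleton] at this
      generalize (D k ∩ {0,2,4,6}).card = z at *
      omega
    have hsz : ∀ k, 3 ≤ (D k).card ∧ (D k).card ≤ 6 := by
      intro k
      have hle : (D k).card ≤ 7 := by
        have := card_le_card (hD.sub k); simpa using this
      have hne : (D k).card ≠ 7 := by
        intro h
        exact hD.nf k (Finset.eq_of_subset_of_card_le (hD.sub k) (by simp [h]))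
      have hc : (cpl 7 D k).card ≤ 4 := by
        apply size7 (cpl 7 D k) (mem_powerset.mpr (hD.cpl.sub k))
        intro T hT hN hTD
        rw [mem_powersetCard] at hT
        have : g (cpl 7 D) ∅ T = 0 := by
          rw [hD.cpl.sym T {0,2,4} hT.1 (by decide) hN (by decide) (by rw [hT.2]; rfl),
            g_cpl D (empty_subset _) (by decide), hR0]
        unfold g at this
        rw [card_eq_zero, filter_eq_empty_iff] at this
        exact this (mem_univ k) ⟨disjoint_empty_left _, hTD⟩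
      have e : (cpl 7 D k).card = 7 - (D k).card := by
        unfold cpl
        rw [card_sdiff_of_subset (hD.sub k), card_range]
      clear t0 t1 t2 t3
      omega
    have y0 := zero_of (D := D) 0 (fun k h => by have := hsz k; clear t0 t1 t2 t3; omega)
    have y1 := zero_of (D := D) 1 (fun k h => by have := hsz k; clear t0 t1 t2 t3; omega)
    have y2 := zero_of (D := D) 2 (fun k h => by have := hsz k; clear t0 t1 t2 t3; omega)
    have y7 := zero_of (D := D) 7 (fun k h => by have := hsz k; clear t0 t1 t2 t3; omega)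
    simp only [y0, y1, y2, y7] at t0 t1 t2 t3
    rw [h1] at t1 hadj
    rw [h2] at t2
    rw [h3] at t3
    simp only [zero_mul, mul_zero, zero_add, add_zero, mul_one] at t0 t1 t2 t3
    exact arith7b _ _ _ _ _ _ _ t0 t1 t2 t3 hadj

end Pool.Agent.Q81.SP
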